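import Mathlib

/-!
# First approach times: arithmetic of the sieve by 2, 3, 5, 7
-/

set_option autoImplicit false

namespace Pool.Agent.R361.FA

open Finset

/-- the divisors of 210 -/
def D210 : Finset ℕ := {1, 2, 3, 5, 6, 7, 10, 14, 15, 21, 30, 35, 42, 70, 105, 210}

/-- the Moebius function on the divisors of 210 -/
def mu (e : ℕ) : ℤ := if e ∈ ({2, 3, 5, 7, 30, 42, 70, 105} : Finset ℕ) then -1 else 1

lemma D210_eq : D210 = Nat.divisors 210 := by decide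

lemma mem_D210 {e : ℕ} : e ∈ D210 ↔ e ∣ 210 := by
  rw [D210_eq, Nat.mem_divisors]
  exact ⟨fun h => h.1, fun h => ⟨h, by norm_num⟩⟩

lemma D210_pos {e : ℕ} (he : e ∈ D210) : 1 ≤ e := Nat.pos_of_dvd_of_pos (mem_D210.1 he) (by norm_num)

lemma abs_mu (e : ℕ) : |(mu e : ℝ)| = 1 := by
  unfold mu; split_ifs <;> simp

lemma mu_sum : ∀ g ∈ D210, ∑ e ∈ D210 with e ∣ g, mu e = if g = 1 then 1 else 0 := by decide

/-- Moebius inversion for the condition `gcd(p, q, 210) = 1` -/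
lemma mu_gcd (p q : ℤ) : ∑ e ∈ D210.filter (fun e : ℕ => (e : ℤ) ∣ p ∧ (e : ℤ) ∣ q), mu e =
    if Int.gcd (Int.gcd p q) 210 = 1 then 1 else 0 := by
  set g := Int.gcd (Int.gcd p q) 210 with hg
  have hg1 : g ∈ D210 := by
    rw [mem_D210]
    have : ((g : ℕ) : ℤ) ∣ 210 := Int.gcd_dvd_right _ _
    exact_mod_cast this
  rw [← mu_sum g hg1]
  congr 1
  ext e
  rw [mem_filter, mem_filter]
  constructor
  · rintro ⟨h1, h2, h3⟩
    refine ⟨h1, ?_⟩
    rw [hg]
    apply Int.dvd_gcd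
    · exact Int.dvd_coe_gcd h2 h3
    · have := mem_D210.1 h1
      exact_mod_cast this
  · rintro ⟨h1, h2⟩
    have h3 : (e : ℤ) ∣ (Int.gcd p q : ℤ) := (Int.natCast_dvd_natCast.2 h2).trans (Int.gcd_dvd_left _ _)
    exact ⟨h1, h3.trans (Int.gcd_dvd_left _ _), h3.trans (Int.gcd_dvd_right _ _)⟩

/-- the weight -/
noncomputable def wt (k : ℕ) : ℝ := ∑ e ∈ D210 with e ∣ k, (mu e : ℝ) / e

/-- number of residues `m` modulo `k` with `gcd(m, k, 210) = 1` -/
def cp (k : ℕ) : Finset ℕ := (range k).filter (fun m => Int.gcd (Int.gcd (m : ℤ) (k : ℤ)) 210 = 1)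

lemma card_mult (k e : ℕ) (he : 1 ≤ e) (hk : e ∣ k) : #((range k).filter (fun m => e ∣ m)) = k / e := by
  obtain ⟨t, rfl⟩ := hk
  rw [Nat.mul_div_cancel_left _ (by omega)]
  have : (range (e * t)).filter (fun m => e ∣ m) = (range t).image (fun i => e * i) := by
    ext m
    rw [mem_filter, mem_range, mem_image]
    constructor
    · rintro ⟨h1, i, rfl⟩
      exact ⟨i, mem_range.2 (Nat.lt_of_mul_lt_mul_left h1), rfl⟩
    · rintro ⟨i, hi, rfl⟩
      exact ⟨Nat.mul_lt_mul_of_pos_left (mem_range.1 hi) (by omega), Dvd.intro _ rfl⟩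
  rw [this, card_image_of_injective _ (fun a b h => Nat.eq_of_mul_eq_mul_left (by omega) h), card_range]

lemma card_cp (k : ℕ) (hk : 1 ≤ k) : (#(cp k) : ℝ) = k * wt k := by
  have h1 : ((#(cp k) : ℕ) : ℤ) = ∑ m ∈ range k, ∑ e ∈ D210.filter (fun e : ℕ => (e : ℤ) ∣ (m : ℤ) ∧ (e : ℤ) ∣ (k : ℤ)), mu e := by
    have h0 : ∀ m ∈ range k, ∑ e ∈ D210.filter (fun e : ℕ => (e : ℤ) ∣ (m : ℤ) ∧ (e : ℤ) ∣ (k : ℤ)), mu e =
        if Int.gcd (Int.gcd (m : ℤ) (k : ℤ)) 210 = 1 then 1 else 0 := fun m _ => mu_gcd (m : ℤ) (k : ℤ)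
    rw [sum_congr rfl h0, ← sum_filter, sum_const, nsmul_eq_mul, mul_one]
    rfl
  have h2 : ∀ m ∈ range k, ∑ e ∈ D210.filter (fun e : ℕ => (e : ℤ) ∣ (m : ℤ) ∧ (e : ℤ) ∣ (k : ℤ)), mu e =
      ∑ e ∈ D210 with e ∣ k, if e ∣ m then mu e else 0 := by
    intro m _
    rw [← sum_filter, filter_filter]
    apply sum_congr _ fun _ _ => rfl
    ext e
    rw [mem_filter, mem_filter, Int.natCast_dvd_natCast, Int.natCast_dvd_natCast]
    tauto
  rw [sum_congr rfl h2, sum_comm] at h1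
  have h3 : ∀ e ∈ D210.filter (fun e => e ∣ k), ∑ m ∈ range k, (if e ∣ m then mu e else 0) = mu e * ((k / e : ℕ) : ℤ) := by
    intro e he
    rw [mem_filter] at he
    rw [← sum_filter, sum_const, nsmul_eq_mul, card_mult k e (D210_pos he.1) he.2]
    ring
  rw [sum_congr rfl h3] at h1
  have h4 : ((#(cp k) : ℕ) : ℝ) = ((((#(cp k) : ℕ) : ℤ)) : ℝ) := by push_cast; rfl
  rw [h4, h1]
  unfold wt
  rw [Int.cast_sum, mul_sum]
  apply sum_congr rfl
  intro e he
  rw [mem_filter] at he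
  have he0 : (e : ℝ) ≠ 0 := by
    have := D210_pos he.1
    exact_mod_cast (by omega : e ≠ 0)
  rw [Int.cast_mul, Int.cast_natCast, Nat.cast_div he.2 he0]
  field_simp

lemma wt_nonneg (k : ℕ) (hk : 1 ≤ k) : 0 ≤ wt k := by
  have h1 := card_cp k hk
  have h2 : (0 : ℝ) ≤ #(cp k) := Nat.cast_nonneg _
  have h3 : (0 : ℝ) < k := by exact_mod_cast hk
  by_contra h
  push Not at h
  have := mul_neg_of_pos_of_neg h3 h
  linarith

/-- the summatory function -/
noncomputable def Wt (j : ℕ) : ℝ := ∑ k ∈ Icc 1 j, wt k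

lemma Wt_mono {i j : ℕ} (h : i ≤ j) : Wt i ≤ Wt j := by
  unfold Wt
  apply sum_le_sum_of_subset_of_nonneg
  · exact Icc_subset_Icc_right h
  · intro k hk _
    rw [mem_Icc] at hk
    exact wt_nonneg k hk.1

lemma card_mult' (j e : ℕ) : #((Icc 1 j).filter (fun k => e ∣ k)) = j / e := by
  have := Nat.card_multiples' j e
  rw [← Nat.Ioc_filter_dvd_card_eq_div j e]
  rfl

/-- the density `∏ (1 - 1/p²)` over `p = 2, 3, 5, 7` -/
lemma Wt_le (j : ℕ) : Wt j ≤ 27648 / 44100 * j + 2 := by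
  unfold Wt wt
  have h1 : ∑ k ∈ Icc 1 j, ∑ e ∈ D210 with e ∣ k, (mu e : ℝ) / e = ∑ e ∈ D210, (mu e : ℝ) / e * ((j / e : ℕ) : ℝ) := by
    have : ∀ k ∈ Icc 1 j, ∑ e ∈ D210 with e ∣ k, (mu e : ℝ) / e = ∑ e ∈ D210, if e ∣ k then (mu e : ℝ) / e else 0 := by
      intro k _; rw [sum_filter]
    rw [sum_congr rfl this, sum_comm]
    apply sum_congr rfl
    intro e _
    rw [← sum_filter, sum_const, nsmul_eq_mul, card_mult']
    ring
  rw [h1]
  have h2 : ∀ e ∈ D210, (mu e : ℝ) / e * ((j / e : ℕ) : ℝ) ≤ (mu e : ℝ) / e ^ 2 * j + (if mu e = -1 then 1 / (e : ℝ) else 0) := by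
    intro e he
    have he1 := D210_pos he
    have he0 : (0 : ℝ) < e := by exact_mod_cast he1
    have h3 : ((j / e : ℕ) : ℝ) ≤ j / e := Nat.cast_div_le
    have h4 : (j : ℝ) / e < ((j / e : ℕ) : ℝ) + 1 := by
      rw [div_lt_iff₀ he0]
      have := Nat.lt_mul_div_succ j he1
      have h5 : ((j : ℕ) : ℝ) < ((e * (j / e + 1) : ℕ) : ℝ) := by exact_mod_cast this
      push_cast at h5
      linarith
    unfold mu
    split_ifs with h5 h6 h6
    · push_cast
      have : -1 / (e : ℝ) ^ 2 * j + 1 / e = -(1 / e) * (j / e - 1) := by field_simp; ring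
      rw [this]
      have h7 : -1 / (e : ℝ) * ((j / e : ℕ) : ℝ) = -(1 / e) * ((j / e : ℕ) : ℝ) := by ring
      rw [h7]
      have h8 : 0 < 1 / (e : ℝ) := by positivity
      nlinarith
    · exact absurd rfl h6
    · norm_num at h6
    · push_cast
      have : 1 / (e : ℝ) ^ 2 * j + 0 = 1 / e * (j / e) := by field_simp; ring
      rw [this]
      exact mul_le_mul_of_nonneg_left h3 (by positivity)
  refine (sum_le_sum h2).trans ?_
  rw [sum_add_distrib, ← sum_mul]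
  have h3 : ∑ e ∈ D210, (mu e : ℝ) / e ^ 2 = 27648 / 44100 := by
    unfold D210 mu
    norm_num [sum_insert, sum_singleton]
  have h4 : ∑ e ∈ D210, (if mu e = -1 then 1 / (e : ℝ) else 0) ≤ 2 := by
    unfold D210 mu
    norm_num [sum_insert, sum_singleton]
  rw [h3]
  linarith

end Pool.Agent.R361.FA
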