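import Mathlib

/-!
# First approach times: the periodic primitive of `1[fract t < η] - η`
-/

set_option autoImplicit false

namespace Pool.Agent.R361.FA

open Finset MeasureTheory

/-- half of the periodised second Bernoulli polynomial -/
noncomputable def bb (t : ℝ) : ℝ := (Int.fract t ^ 2 - Int.fract t + 1 / 6) / 2

lemma bb_add_one (t : ℝ) : bb (t + 1) = bb t := by unfold bb; rw [Int.fract_add_one]

lemma bb_periodic : Function.Periodic bb 1 := bb_add_one

lemma bb_fract (t : ℝ) : bb (Int.fract t) = bb t := by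
  unfold bb; rw [Int.fract_fract]

lemma bb_lip {z δ : ℝ} (hδ : 0 ≤ δ) : |bb (z - δ) - bb z| ≤ δ / 2 := by
  have h0 := Int.fract_nonneg z
  have h1 := Int.fract_lt_one z
  by_cases hd : δ < 1
  · set x := Int.fract z with hx
    by_cases hxd : δ ≤ x
    · have h2 : Int.fract (z - δ) = x - δ := by
        rw [Int.fract_eq_iff]
        refine ⟨by linarith, by linarith, ⌊z⌋, ?_⟩
        rw [hx, Int.fract]; ring
      unfold bb
      rw [h2, ← hx, abs_le]
      constructor <;> nlinarith
    · push Not at hxd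
      have h2 : Int.fract (z - δ) = x - δ + 1 := by
        rw [Int.fract_eq_iff]
        refine ⟨by linarith, by linarith, ⌊z⌋ - 1, ?_⟩
        rw [hx, Int.fract]; push_cast; ring
      unfold bb
      rw [h2, ← hx, abs_le]
      constructor <;> nlinarith
  · push Not at hd
    have h2 := Int.fract_nonneg (z - δ)
    have h3 := Int.fract_lt_one (z - δ)
    unfold bb
    rw [abs_le]
    constructor <;> nlinarith

lemma bb_continuous : Continuous bb := by
  have : LipschitzWith 1 bb := by
    apply LipschitzWith.of_dist_le_mul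
    intro x y
    rw [Real.dist_eq, Real.dist_eq, NNReal.coe_one, one_mul]
    rcases le_total x y with h | h
    · have := bb_lip (z := y) (δ := y - x) (by linarith)
      rw [sub_sub_cancel] at this
      rw [abs_sub_comm x y, abs_of_nonneg (by linarith : 0 ≤ y - x)]
      linarith
    · have := bb_lip (z := x) (δ := x - y) (by linarith)
      rw [sub_sub_cancel, abs_sub_comm] at this
      rw [abs_of_nonneg (by linarith : 0 ≤ x - y)]
      linarith
  exact this.continuous

lemma bb_hasDerivAt {t : ℝ} (ht : t ∉ Set.range (fun n : ℤ => (n : ℝ))) :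
    HasDerivAt bb (Int.fract t - 1 / 2) t := by
  have hfl : (⌊t⌋ : ℝ) < t := by
    refine lt_of_le_of_ne (Int.floor_le t) ?_
    intro h
    exact ht ⟨⌊t⌋, h⟩
  have hev : bb =ᶠ[nhds t] fun s => ((s - ⌊t⌋) ^ 2 - (s - ⌊t⌋) + 1 / 6) / 2 := by
    have hIoo : Set.Ioo (⌊t⌋ : ℝ) (⌊t⌋ + 1) ∈ nhds t := Ioo_mem_nhds hfl (Int.lt_floor_add_one t)
    filter_upwards [hIoo] with s hs
    have : Int.fract s = s - ⌊t⌋ := by
      rw [Int.fract_eq_iff]
      exact ⟨by linarith [hs.1], by linarith [hs.2], ⌊t⌋, by ring⟩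
    unfold bb
    rw [this]
  refine HasDerivAt.congr_of_eventuallyEq ?_ hev
  have h1 : HasDerivAt (fun s : ℝ => s - ⌊t⌋) 1 t := (hasDerivAt_id t).sub_const _
  have h2 := ((((h1.pow 2).sub h1).add_const (1 / 6 : ℝ)).div_const 2)
  have h3 : (((2 : ℕ) : ℝ) * (t - ⌊t⌋) ^ (2 - 1) * 1 - 1) / 2 = Int.fract t - 1 / 2 := by
    rw [Int.fract]; norm_num; ring
  rw [← h3]
  exact h2

/-- the periodic primitive -/
noncomputable def uu (η t : ℝ) : ℝ := bb (t - η) - bb t

lemma uu_periodic (η : ℝ) : Function.Periodic (uu η) 1 := by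
  intro t
  unfold uu
  rw [bb_add_one, show t + 1 - η = (t - η) + 1 by ring, bb_add_one]

lemma uu_continuous (η : ℝ) : Continuous (uu η) :=
  (bb_continuous.comp (continuous_id.sub continuous_const)).sub bb_continuous

lemma abs_uu_le {η : ℝ} (h : 0 ≤ η) (t : ℝ) : |uu η t| ≤ η / 2 := bb_lip h

lemma intIntegrable_of_bdd {f : ℝ → ℝ} (hf : Measurable f) (C : ℝ) (hC : ∀ x, |f x| ≤ C) (a b : ℝ) :
    IntervalIntegrable f volume a b := by
  refine (intervalIntegrable_const (c := C)).mono_fun hf.aestronglyMeasurable ?_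
  refine Filter.Eventually.of_forall fun x => ?_
  show |f x| ≤ |C|
  exact (hC x).trans (le_abs_self C)

/-- the centred indicator -/
noncomputable def hh (η t : ℝ) : ℝ := (if Int.fract t < η then 1 else 0) - η

lemma hh_measurable (η : ℝ) : Measurable (hh η) := by
  unfold hh
  refine Measurable.sub_const ?_ _
  exact Measurable.ite (measurableSet_lt measurable_fract measurable_const) measurable_const measurable_const

lemma abs_hh_le {η : ℝ} (h0 : 0 ≤ η) (h1 : η ≤ 1) (t : ℝ) : |hh η t| ≤ 1 := by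
  unfold hh
  rw [abs_le]
  split_ifs <;> constructor <;> linarith

lemma fract_sub_fract {η t : ℝ} (h0 : 0 ≤ η) (h1 : η ≤ 1) :
    Int.fract (t - η) - Int.fract t = hh η t := by
  unfold hh
  have hx0 := Int.fract_nonneg t
  have hx1 := Int.fract_lt_one t
  split_ifs with h
  · have : Int.fract (t - η) = Int.fract t - η + 1 := by
      rw [Int.fract_eq_iff]
      refine ⟨by linarith, by linarith, ⌊t⌋ - 1, ?_⟩
      rw [Int.fract]; push_cast; ring
    rw [this]; ring
  · push Not at h
    have : Int.fract (t - η) = Int.fract t - η := by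
      rw [Int.fract_eq_iff]
      refine ⟨by linarith, by linarith, ⌊t⌋, ?_⟩
      rw [Int.fract]; ring
    rw [this]; ring

lemma integral_hh {η : ℝ} (h0 : 0 ≤ η) (h1 : η ≤ 1) (x y : ℝ) :
    ∫ t in x..y, hh η t = uu η y - uu η x := by
  set s : Set ℝ := Set.range (fun n : ℤ => (n : ℝ)) ∪ Set.range (fun n : ℤ => (n : ℝ) + η) with hs
  have hsc : s.Countable := (Set.countable_range _).union (Set.countable_range _)
  refine MeasureTheory.integral_eq_of_hasDerivAt_off_countable (uu η) (hh η) hsc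
    (uu_continuous η).continuousOn ?_ (intIntegrable_of_bdd (hh_measurable η) 1 (abs_hh_le h0 h1) x y)
  intro t ht
  have ht2 := ht.2
  rw [hs, Set.mem_union, not_or] at ht2
  have hA : t - η ∉ Set.range (fun n : ℤ => (n : ℝ)) := by
    rintro ⟨n, hn⟩
    exact ht2.2 ⟨n, by simp only at hn ⊢; linarith⟩
  rw [← fract_sub_fract h0 h1]
  have d1 : HasDerivAt (fun s : ℝ => bb (s - η)) (Int.fract (t - η) - 1 / 2) t :=
    (bb_hasDerivAt hA).comp_sub_const t η
  have d2 := d1.sub (bb_hasDerivAt ht2.1)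
  have e : Int.fract (t - η) - Int.fract t = (Int.fract (t - η) - 1 / 2) - (Int.fract t - 1 / 2) := by ring
  rw [e]
  exact d2

lemma integral_hh_mul {η : ℝ} (h0 : 0 ≤ η) (h1 : η ≤ 1) {r : ℝ} (hr : r ≠ 0) (x y : ℝ) :
    ∫ t in x..y, hh η (r * t) = (uu η (r * y) - uu η (r * x)) / r := by
  rw [intervalIntegral.integral_comp_mul_left (fun t => hh η t) hr, integral_hh h0 h1, smul_eq_mul]
  field_simp

/-- multiplication theorem for the second Bernoulli polynomial -/
lemma bb_mul (r : ℕ) (hr : 1 ≤ r) (y : ℝ) : ∑ j ∈ range r, bb (y + j / r) = bb (r * y) / r := by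
  have hr0 : (0 : ℝ) < r := by exact_mod_cast hr
  have hper : Function.Periodic (fun y : ℝ => ∑ j ∈ range r, bb (y + j / r)) (1 / r) := by
    intro y
    have h1 : ∀ j ∈ range r, bb (y + 1 / r + j / r) = bb (y + ((j + 1 : ℕ) : ℝ) / r) := by
      intro j _; congr 1; push_cast; ring
    simp only
    rw [sum_congr rfl h1]
    have h2 := sum_range_succ (fun j : ℕ => bb (y + (j : ℝ) / r)) r
    have h3 := sum_range_succ' (fun j : ℕ => bb (y + (j : ℝ) / r)) r
    have h4 : bb (y + (r : ℝ) / r) = bb y := by rw [div_self hr0.ne', bb_add_one]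
    rw [h4] at h2
    simp only [Nat.cast_zero, zero_div, add_zero] at h3
    linarith
  -- reduce to y in [0, 1/r)
  set n := ⌊(r : ℝ) * y⌋ with hn
  set z := Int.fract ((r : ℝ) * y) / r with hz
  have hyz : y = z + n * (1 / r) := by
    rw [hz, Int.fract, ← hn]; field_simp; ring
  have h5 : ∑ j ∈ range r, bb (y + j / r) = ∑ j ∈ range r, bb (z + j / r) := by
    have := hper.int_mul n z
    rw [hyz]
    exact this
  have h6 : bb ((r : ℝ) * y) = bb (r * z) := by
    rw [hz, mul_div_cancel₀ _ hr0.ne', bb_fract]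
  rw [h5, h6]
  have hz0 : 0 ≤ z := div_nonneg (Int.fract_nonneg _) hr0.le
  have hz1 : r * z < 1 := by
    rw [hz, mul_div_cancel₀ _ hr0.ne']; exact Int.fract_lt_one _
  clear_value z
  have h7 : ∀ j ∈ range r, bb (z + j / r) = ((z + j / r) ^ 2 - (z + j / r) + 1 / 6) / 2 := by
    intro j hj
    rw [mem_range] at hj
    have : Int.fract (z + j / r) = z + j / r := by
      rw [Int.fract_eq_self]
      constructor
      · positivity
      · have hj' : (j : ℝ) + 1 ≤ r := by exact_mod_cast hj
        have : r * (z + j / r) < r := by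
          rw [mul_add, mul_div_cancel₀ _ hr0.ne']; linarith
        nlinarith
    unfold bb
    rw [this]
  rw [sum_congr rfl h7]
  have h8 : bb (r * z) = ((r * z) ^ 2 - r * z + 1 / 6) / 2 := by
    have : Int.fract ((r : ℝ) * z) = r * z := by
      rw [Int.fract_eq_self]; exact ⟨by positivity, hz1⟩
    unfold bb
    rw [this]
  rw [h8]
  have hs1 : ∑ j ∈ range r, (j : ℝ) = r * (r - 1) / 2 := by
    clear * -
    induction r with
    | zero => simp
    | succ k ih => rw [sum_range_succ, ih]; push_cast; ring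
  have hs2 : ∑ j ∈ range r, (j : ℝ) ^ 2 = r * (r - 1) * (2 * r - 1) / 6 := by
    clear * -
    induction r with
    | zero => simp
    | succ k ih => rw [sum_range_succ, ih]; push_cast; ring
  have h9 : ∀ j ∈ range r, ((z + (j : ℝ) / r) ^ 2 - (z + j / r) + 1 / 6) / 2 =
      (z ^ 2 - z + 1 / 6) / 2 + (z / r - 1 / (2 * r)) * j + 1 / (2 * r ^ 2) * (j : ℝ) ^ 2 := by
    intro j _; field_simp; ring
  rw [sum_congr rfl h9, sum_add_distrib, sum_add_distrib, ← mul_sum, ← mul_sum, hs1, hs2, sum_const, card_range,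
    nsmul_eq_mul]
  field_simp
  ring

lemma abs_sum_uu_le {η : ℝ} (h0 : 0 ≤ η) (r : ℕ) (hr : 1 ≤ r) (y : ℝ) :
    |∑ j ∈ range r, uu η (y + j / r)| ≤ η / 2 := by
  have hr0 : (0 : ℝ) < r := by exact_mod_cast hr
  have h1 : ∑ j ∈ range r, uu η (y + j / r) = (bb (r * y - r * η) - bb (r * y)) / r := by
    have h2 : ∀ j ∈ range r, uu η (y + j / r) = bb ((y - η) + j / r) - bb (y + j / r) := by
      intro j _; unfold uu; congr 2; ring
    rw [sum_congr rfl h2, sum_sub_distrib, bb_mul r hr, bb_mul r hr, mul_sub, sub_div]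
  rw [h1, abs_div, abs_of_pos hr0, div_le_iff₀ hr0]
  have := bb_lip (z := (r : ℝ) * y) (δ := r * η) (by positivity)
  linarith

/-- Chinese remainder theorem for sums of products -/
lemma sum_crt {r s : ℕ} (hr : 1 ≤ r) (hs : 1 ≤ s) (hrs : Nat.Coprime r s) (A B : ℕ → ℝ) :
    ∑ k ∈ range (r * s), A (k % s) * B (k % r) = (∑ i ∈ range s, A i) * ∑ j ∈ range r, B j := by
  rw [sum_mul_sum, ← sum_product']
  have hinj : Set.InjOn (fun k : ℕ => (k % s, k % r)) (range (r * s) : Finset ℕ) := by
    intro x hx y hy hxy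
    simp only [coe_range, Set.mem_Iio] at hx hy
    simp only [Prod.mk.injEq] at hxy
    have h1 : x ≡ y [MOD s * r] := (Nat.modEq_and_modEq_iff_modEq_mul hrs.symm).1 ⟨hxy.1, hxy.2⟩
    have h2 : x % (s * r) = x := Nat.mod_eq_of_lt (by rw [mul_comm]; exact hx)
    have h3 : y % (s * r) = y := Nat.mod_eq_of_lt (by rw [mul_comm]; exact hy)
    have h4 : x % (s * r) = y % (s * r) := h1
    rw [h2, h3] at h4
    exact h4
  have hmaps : ∀ k ∈ range (r * s), (fun k : ℕ => (k % s, k % r)) k ∈ range s ×ˢ range r := by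
    intro k _
    rw [mem_product, mem_range, mem_range]
    exact ⟨Nat.mod_lt _ (by omega), Nat.mod_lt _ (by omega)⟩
  have himg : (range (r * s)).image (fun k : ℕ => (k % s, k % r)) = range s ×ˢ range r := by
    apply eq_of_subset_of_card_le
    · intro p hp
      rw [mem_image] at hp
      obtain ⟨k, hk, rfl⟩ := hp
      exact hmaps k hk
    · rw [card_image_of_injOn hinj, card_product, card_range, card_range, card_range, mul_comm]
  rw [← himg, sum_image hinj]

lemma periodic_nat {f : ℝ → ℝ} (hf : Function.Periodic f 1) (x : ℝ) (n : ℕ) : f (x + n) = f x := by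
  have := hf.nat_mul n x
  rwa [mul_one] at this

lemma integral_shift {H : ℝ → ℝ} (hH : Function.Periodic H 1) (a : ℝ) :
    ∫ x in (0:ℝ)..1, H (x + a) = ∫ x in (0:ℝ)..1, H x := by
  rw [intervalIntegral.integral_comp_add_right (fun x => H x) a]
  have := hH.intervalIntegral_add_eq (0 + a) 0
  rw [zero_add] at this ⊢
  rw [add_comm 1 a, this, zero_add]

lemma integral_mul {H : ℝ → ℝ} (hH : Function.Periodic H 1) (hHi : ∀ a b, IntervalIntegrable H volume a b) (g : ℕ) (hg : 1 ≤ g) :
    ∫ x in (0:ℝ)..1, H (g * x) = ∫ x in (0:ℝ)..1, H x := by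
  have hg0 : (g : ℝ) ≠ 0 := by exact_mod_cast (by omega : g ≠ 0)
  rw [intervalIntegral.integral_comp_mul_left (fun x => H x) hg0, mul_zero, mul_one]
  have h1 : ∀ n : ℕ, ∫ x in (0:ℝ)..n, H x = n * ∫ x in (0:ℝ)..1, H x := by
    intro n
    induction n with
    | zero => simp
    | succ k ih =>
      rw [← intervalIntegral.integral_add_adjacent_intervals (hHi 0 k) (hHi k _), ih]
      have := hH.intervalIntegral_add_eq (k : ℝ) 0
      push_cast
      rw [this, zero_add]
      ring
  rw [h1, smul_eq_mul]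
  field_simp

lemma integral_uu_coprime {η : ℝ} (h0 : 0 ≤ η) {r s : ℕ} (hr : 1 ≤ r) (hs : 1 ≤ s) (hrs : Nat.Coprime r s) :
    |∫ x in (0:ℝ)..1, uu η (r * x) * uu η (s * x)| ≤ η ^ 2 / (4 * r * s) := by
  have hr0 : (0 : ℝ) < r := by exact_mod_cast hr
  have hs0 : (0 : ℝ) < s := by exact_mod_cast hs
  set H : ℝ → ℝ := fun x => uu η (r * x) * uu η (s * x) with hH
  have hHp : Function.Periodic H 1 := by
    intro x
    simp only [hH]
    rw [mul_add, mul_add, mul_one, mul_one, periodic_nat (uu_periodic η), periodic_nat (uu_periodic η)]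
  have hHc : Continuous H :=
    ((uu_continuous η).comp (continuous_const.mul continuous_id)).mul
      ((uu_continuous η).comp (continuous_const.mul continuous_id))
  have h1 : (r * s : ℝ) * ∫ x in (0:ℝ)..1, H x =
      ∫ x in (0:ℝ)..1, ∑ k ∈ range (r * s), H (x + k / (r * s)) := by
    rw [intervalIntegral.integral_finsetSum]
    · have : ∀ k ∈ range (r * s), ∫ x in (0:ℝ)..1, H (x + k / (r * s)) = ∫ x in (0:ℝ)..1, H x :=
        fun k _ => integral_shift hHp _
      rw [sum_congr rfl this, sum_const, card_range, nsmul_eq_mul]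
      push_cast
      ring
    · intro k _
      exact (hHc.comp (continuous_id.add continuous_const)).intervalIntegrable _ _
  have h2 : ∀ x, |∑ k ∈ range (r * s), H (x + k / (r * s))| ≤ η / 2 * (η / 2) := by
    intro x
    have h3 : ∀ k ∈ range (r * s), H (x + k / (r * s)) =
        (fun i : ℕ => uu η (r * x + i / s)) (k % s) * (fun j : ℕ => uu η (s * x + j / r)) (k % r) := by
      intro k _
      simp only [hH]
      congr 1
      · have e1 : (r : ℝ) * (x + k / (r * s)) = (r * x + ((k % s : ℕ) : ℝ) / s) + ((k / s : ℕ) : ℝ) := by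
          have h4 : (k : ℝ) = ((k % s : ℕ) : ℝ) + s * ((k / s : ℕ) : ℝ) := by exact_mod_cast (Nat.mod_add_div k s).symm
          have h5 : (r : ℝ) * (x + k / (r * s)) = r * x + k / s := by field_simp
          rw [h5]
          nth_rewrite 1 [h4]
          field_simp
          ring
        rw [e1, periodic_nat (uu_periodic η)]
      · have e1 : (s : ℝ) * (x + k / (r * s)) = (s * x + ((k % r : ℕ) : ℝ) / r) + ((k / r : ℕ) : ℝ) := by
          have h4 : (k : ℝ) = ((k % r : ℕ) : ℝ) + r * ((k / r : ℕ) : ℝ) := by exact_mod_cast (Nat.mod_add_div k r).symm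
          have h5 : (s : ℝ) * (x + k / (r * s)) = s * x + k / r := by field_simp
          rw [h5]
          nth_rewrite 1 [h4]
          field_simp
          ring
        rw [e1, periodic_nat (uu_periodic η)]
    rw [sum_congr rfl h3, sum_crt hr hs hrs (fun i : ℕ => uu η (r * x + i / s)) (fun j : ℕ => uu η (s * x + j / r)), abs_mul]
    exact mul_le_mul (abs_sum_uu_le h0 s hs _) (abs_sum_uu_le h0 r hr _) (abs_nonneg _) (by positivity)
  have h3 : |(r * s : ℝ) * ∫ x in (0:ℝ)..1, H x| ≤ η / 2 * (η / 2) := by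
    rw [h1]
    have := intervalIntegral.norm_integral_le_of_norm_le_const (a := (0:ℝ)) (b := 1)
      (f := fun x => ∑ k ∈ range (r * s), H (x + k / (r * s))) (C := η / 2 * (η / 2))
      (fun x _ => by rw [Real.norm_eq_abs]; exact h2 x)
    rw [Real.norm_eq_abs, sub_zero, abs_one, mul_one] at this
    exact this
  rw [abs_mul, abs_of_pos (by positivity : (0:ℝ) < r * s)] at h3
  rw [le_div_iff₀ (by positivity)]
  nlinarith

/-- Lemma W -/
lemma integral_uu_le {η : ℝ} (h0 : 0 ≤ η) {r s : ℕ} (hr : 1 ≤ r) (hs : 1 ≤ s) :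
    |∫ x in (0:ℝ)..1, uu η (r * x) * uu η (s * x)| ≤ η ^ 2 * (Nat.gcd r s : ℝ) ^ 2 / (4 * r * s) := by
  have hg : 0 < Nat.gcd r s := Nat.gcd_pos_of_pos_left _ (by omega)
  obtain ⟨r', s', hcop, hr', hs'⟩ : ∃ r' s' : ℕ, Nat.Coprime r' s' ∧ r = Nat.gcd r s * r' ∧ s = Nat.gcd r s * s' := by
    obtain ⟨r', s', h1, h2, h3⟩ := Nat.exists_coprime r s
    exact ⟨r', s', h1, by rw [mul_comm]; exact h2, by rw [mul_comm]; exact h3⟩
  set g := Nat.gcd r s with hgdef
  have hr1 : 1 ≤ r' := by
    rcases Nat.eq_zero_or_pos r' with h | h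
    · rw [h, mul_zero] at hr'; omega
    · exact h
  have hs1 : 1 ≤ s' := by
    rcases Nat.eq_zero_or_pos s' with h | h
    · rw [h, mul_zero] at hs'; omega
    · exact h
  have hHc : Continuous (fun x : ℝ => uu η (r' * x) * uu η (s' * x)) :=
    ((uu_continuous η).comp (continuous_const.mul continuous_id)).mul
      ((uu_continuous η).comp (continuous_const.mul continuous_id))
  have hHp : Function.Periodic (fun x : ℝ => uu η (r' * x) * uu η (s' * x)) 1 := by
    intro x
    simp only
    rw [mul_add, mul_add, mul_one, mul_one, periodic_nat (uu_periodic η), periodic_nat (uu_periodic η)]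
  have h1 := integral_mul hHp (fun a b => hHc.intervalIntegrable a b) g hg
  have h2 : ∀ x : ℝ, uu η (r * x) * uu η (s * x) = uu η (r' * (g * x)) * uu η (s' * (g * x)) := by
    intro x
    have e1 : (r : ℝ) = g * r' := by exact_mod_cast hr'
    have e2 : (s : ℝ) = g * s' := by exact_mod_cast hs'
    rw [e1, e2]
    congr 2 <;> ring
  simp_rw [h2]
  rw [h1]
  refine (integral_uu_coprime h0 hr1 hs1 hcop).trans (le_of_eq ?_)
  have e1 : (r : ℝ) = g * r' := by exact_mod_cast hr'
  have e2 : (s : ℝ) = g * s' := by exact_mod_cast hs'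
  have hg0 : (g : ℝ) ≠ 0 := by exact_mod_cast hg.ne'
  have hr0 : (r' : ℝ) ≠ 0 := by exact_mod_cast (by omega : r' ≠ 0)
  have hs0 : (s' : ℝ) ≠ 0 := by exact_mod_cast (by omega : s' ≠ 0)
  rw [e1, e2]
  field_simp

end Pool.Agent.R361.FA
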