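import Mathlib
import Pool.Agent.R361.FA.Saw

/-!
# First approach times: quasi-orthogonality
-/

set_option autoImplicit false

namespace Pool.Agent.R361.FA

open Finset MeasureTheory

lemma sum_sq_mult (K M D : ℕ) (hD : 1 ≤ D) (R : Finset ℕ) (hR : R ⊆ Ioc K M) :
    (D : ℝ) * ∑ r ∈ R with D ∣ r, ((r : ℝ) ^ 2)⁻¹ ≤ 2 / (max D K : ℕ) := by
  have hD0 : (0 : ℝ) < D := by exact_mod_cast hD
  set n := K / D with hn
  have hsub : R.filter (fun r => D ∣ r) ⊆ (Ioo n (M + 1)).image (fun t => D * t) := by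
    intro r hr
    rw [mem_filter] at hr
    obtain ⟨t, rfl⟩ := hr.2
    have h1 := mem_Ioc.1 (hR hr.1)
    refine mem_image.2 ⟨t, mem_Ioo.2 ⟨?_, ?_⟩, rfl⟩
    · rw [hn, Nat.div_lt_iff_lt_mul (by omega), mul_comm]; exact h1.1
    · have : t ≤ D * t := Nat.le_mul_of_pos_left _ (by omega)
      omega
  have h1 : ∑ r ∈ R with D ∣ r, ((r : ℝ) ^ 2)⁻¹ ≤ ∑ r ∈ (Ioo n (M + 1)).image (fun t => D * t), ((r : ℝ) ^ 2)⁻¹ :=
    sum_le_sum_of_subset_of_nonneg hsub (fun _ _ _ => by positivity)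
  rw [sum_image (fun a _ b _ h => Nat.eq_of_mul_eq_mul_left (by omega) h)] at h1
  have h2 : ∀ t ∈ Ioo n (M + 1), (((D * t : ℕ) : ℝ) ^ 2)⁻¹ = ((D : ℝ) ^ 2)⁻¹ * ((t : ℝ) ^ 2)⁻¹ := by
    intro t _; push_cast; rw [mul_pow, mul_inv]
  rw [sum_congr rfl h2, ← mul_sum] at h1
  have h3 := sum_Ioo_inv_sq_le (α := ℝ) n (M + 1)
  have h4 : (D : ℝ) * ∑ r ∈ R with D ∣ r, ((r : ℝ) ^ 2)⁻¹ ≤ D * (((D : ℝ) ^ 2)⁻¹ * (2 / (n + 1))) := by
    apply mul_le_mul_of_nonneg_left _ hD0.le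
    exact h1.trans (mul_le_mul_of_nonneg_left h3 (by positivity))
  refine h4.trans ?_
  have h5 : (D : ℝ) * (((D : ℝ) ^ 2)⁻¹ * (2 / (n + 1))) = 2 / (D * (n + 1)) := by field_simp
  rw [h5]
  have h6 : ((max D K : ℕ) : ℝ) ≤ D * (n + 1) := by
    have : max D K ≤ D * (n + 1) := by
      apply max_le
      · exact Nat.le_mul_of_pos_right _ (Nat.succ_pos _)
      · rw [hn]; exact (Nat.lt_mul_div_succ K (by omega)).le
    exact_mod_cast this
  have h7 : (0 : ℝ) < (max D K : ℕ) := by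
    have : 0 < max D K := lt_max_of_lt_left (by omega)
    exact_mod_cast this
  exact div_le_div_of_nonneg_left (by norm_num) h7 h6

/-- Lemma Y -/
lemma sum_gcd_le (K M : ℕ) (hK : 1 ≤ K) (R : Finset ℕ) (hR : R ⊆ Ioc K M) :
    ∑ r ∈ R, ∑ s ∈ R, (Nat.gcd r s : ℝ) ^ 2 / ((r : ℝ) ^ 2 * (s : ℝ) ^ 2) ≤ 12 / K := by
  have hK0 : (0 : ℝ) < K := by exact_mod_cast hK
  have h1 : ∀ r ∈ R, ∀ s ∈ R, (Nat.gcd r s : ℝ) ^ 2 / ((r : ℝ) ^ 2 * (s : ℝ) ^ 2) ≤
      ∑ D ∈ Icc 1 M, (D : ℝ) ^ 2 * ((if D ∣ r then ((r : ℝ) ^ 2)⁻¹ else 0) * (if D ∣ s then ((s : ℝ) ^ 2)⁻¹ else 0)) := by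
    intro r hr s hs
    have hr' := mem_Ioc.1 (hR hr)
    have hg : Nat.gcd r s ∈ Icc 1 M := by
      rw [mem_Icc]
      exact ⟨Nat.gcd_pos_of_pos_left _ (by omega), (Nat.gcd_le_left _ (by omega)).trans hr'.2⟩
    refine le_trans (le_of_eq ?_) (single_le_sum (f := fun D : ℕ => (D : ℝ) ^ 2 * ((if D ∣ r then ((r : ℝ) ^ 2)⁻¹ else 0) * (if D ∣ s then ((s : ℝ) ^ 2)⁻¹ else 0))) (fun D _ => ?_) hg)
    · rw [if_pos (Nat.gcd_dvd_left r s), if_pos (Nat.gcd_dvd_right r s), div_eq_mul_inv, mul_inv]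
    · split_ifs <;> positivity
  refine (sum_le_sum fun r hr => sum_le_sum fun s hs => h1 r hr s hs).trans ?_
  have h2 : ∑ r ∈ R, ∑ s ∈ R, ∑ D ∈ Icc 1 M, (D : ℝ) ^ 2 * ((if D ∣ r then ((r : ℝ) ^ 2)⁻¹ else 0) * (if D ∣ s then ((s : ℝ) ^ 2)⁻¹ else 0)) =
      ∑ D ∈ Icc 1 M, ((D : ℝ) * ∑ r ∈ R with D ∣ r, ((r : ℝ) ^ 2)⁻¹) ^ 2 := by
    have : ∀ r ∈ R, ∑ s ∈ R, ∑ D ∈ Icc 1 M, (D : ℝ) ^ 2 * ((if D ∣ r then ((r : ℝ) ^ 2)⁻¹ else 0) * (if D ∣ s then ((s : ℝ) ^ 2)⁻¹ else 0)) =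
        ∑ D ∈ Icc 1 M, ∑ s ∈ R, (D : ℝ) ^ 2 * ((if D ∣ r then ((r : ℝ) ^ 2)⁻¹ else 0) * (if D ∣ s then ((s : ℝ) ^ 2)⁻¹ else 0)) :=
      fun r _ => sum_comm
    rw [sum_congr rfl this, sum_comm]
    apply sum_congr rfl
    intro D _
    rw [mul_pow, sq (∑ r ∈ R with D ∣ r, ((r : ℝ) ^ 2)⁻¹), sum_filter, sum_mul_sum, mul_sum]
    apply sum_congr rfl
    intro r _
    rw [mul_sum]
  rw [h2]
  have h3 : ∀ D ∈ Icc 1 M, ((D : ℝ) * ∑ r ∈ R with D ∣ r, ((r : ℝ) ^ 2)⁻¹) ^ 2 ≤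
      (if D ≤ K then 4 / (K : ℝ) ^ 2 else 0) + (if D ≤ K then 0 else 4 * ((D : ℝ) ^ 2)⁻¹) := by
    intro D hD
    have hD1 := (mem_Icc.1 hD).1
    have hD0 : (0 : ℝ) < D := by exact_mod_cast hD1
    have h4 := sum_sq_mult K M D hD1 R hR
    have h5 : (0 : ℝ) ≤ (D : ℝ) * ∑ r ∈ R with D ∣ r, ((r : ℝ) ^ 2)⁻¹ :=
      mul_nonneg hD0.le (sum_nonneg fun _ _ => by positivity)
    have h6 := pow_le_pow_left₀ h5 h4 2
    refine h6.trans ?_
    split_ifs with h7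
    · rw [max_eq_right h7, add_zero, div_pow]
      norm_num
    · rw [max_eq_left (by omega), zero_add, div_pow, div_eq_mul_inv]
      norm_num
  refine (sum_le_sum h3).trans ?_
  rw [sum_add_distrib, ← sum_filter]
  have h4 : (∑ D ∈ Icc 1 M with D ≤ K, 4 / (K : ℝ) ^ 2) ≤ 4 / (K : ℝ) := by
    rw [sum_const, nsmul_eq_mul]
    have : (#((Icc 1 M).filter (fun D => D ≤ K)) : ℝ) ≤ K := by
      have h5 : (Icc 1 M).filter (fun D => D ≤ K) ⊆ Icc 1 K := by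
        intro D hD
        rw [mem_filter, mem_Icc] at hD
        exact mem_Icc.2 ⟨hD.1.1, hD.2⟩
      have h6 := card_le_card h5
      rw [Nat.card_Icc] at h6
      exact_mod_cast h6
    calc (#((Icc 1 M).filter (fun D => D ≤ K)) : ℝ) * (4 / (K : ℝ) ^ 2) ≤ K * (4 / (K : ℝ) ^ 2) :=
          mul_le_mul_of_nonneg_right this (by positivity)
      _ = 4 / K := by field_simp
  have h5 : ∑ D ∈ Icc 1 M, (if D ≤ K then 0 else 4 * ((D : ℝ) ^ 2)⁻¹) ≤ 8 / K := by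
    have e1 : ∑ D ∈ Icc 1 M, (if D ≤ K then 0 else 4 * ((D : ℝ) ^ 2)⁻¹) = ∑ D ∈ Icc 1 M with ¬ (D ≤ K), 4 * ((D : ℝ) ^ 2)⁻¹ := by
      rw [sum_filter]
      apply sum_congr rfl
      intro D _
      split_ifs <;> simp_all
    rw [e1]
    have e2 : (Icc 1 M).filter (fun D => ¬ (D ≤ K)) ⊆ Ioo K (M + 1) := by
      intro D hD
      rw [mem_filter, mem_Icc] at hD
      exact mem_Ioo.2 ⟨by omega, by omega⟩
    refine (sum_le_sum_of_subset_of_nonneg e2 (fun _ _ _ => by positivity)).trans ?_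
    rw [← mul_sum]
    have e3 := sum_Ioo_inv_sq_le (α := ℝ) K (M + 1)
    have e4 : 2 / ((K : ℝ) + 1) ≤ 2 / K := div_le_div_of_nonneg_left (by norm_num) hK0 (by linarith)
    calc 4 * ∑ i ∈ Ioo K (M + 1), ((i : ℝ) ^ 2)⁻¹ ≤ 4 * (2 / K) := by linarith
      _ = 8 / K := by ring
  have h6 : (12 : ℝ) / K = 4 / K + 8 / K := by ring
  rw [h6]
  exact add_le_add h4 h5

/-- the primitive of a sum of centred indicators -/
noncomputable def SS (R : Finset ℕ) (η x : ℝ) : ℝ := ∑ r ∈ R, uu η (r * x) / r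

lemma SS_continuous (R : Finset ℕ) (η : ℝ) : Continuous (SS R η) := by
  unfold SS
  apply continuous_finsetSum
  intro r _
  exact ((uu_continuous η).comp (continuous_const.mul continuous_id)).div_const _

lemma SS_periodic (R : Finset ℕ) (η : ℝ) : Function.Periodic (SS R η) 1 := by
  intro x
  unfold SS
  apply sum_congr rfl
  intro r _
  rw [mul_add, mul_one, periodic_nat (uu_periodic η)]

lemma integral_SS_sq {η : ℝ} (h0 : 0 ≤ η) (K M : ℕ) (hK : 1 ≤ K) (R : Finset ℕ) (hR : R ⊆ Ioc K M) :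
    ∫ x in (0:ℝ)..1, SS R η x ^ 2 ≤ 3 * η ^ 2 / K := by
  have hK0 : (0 : ℝ) < K := by exact_mod_cast hK
  have h1 : ∀ x, SS R η x ^ 2 = ∑ r ∈ R, ∑ s ∈ R, (1 / ((r : ℝ) * s)) * (uu η (r * x) * uu η (s * x)) := by
    intro x
    unfold SS
    rw [sq, sum_mul_sum]
    apply sum_congr rfl; intro r _
    apply sum_congr rfl; intro s _
    rw [div_mul_div_comm]; ring
  have hc : ∀ r s : ℕ, Continuous (fun x : ℝ => (1 / ((r : ℝ) * s)) * (uu η (r * x) * uu η (s * x))) := by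
    intro r s
    exact continuous_const.mul (((uu_continuous η).comp (continuous_const.mul continuous_id)).mul
      ((uu_continuous η).comp (continuous_const.mul continuous_id)))
  simp_rw [h1]
  rw [intervalIntegral.integral_finsetSum]
  swap
  · intro r _
    exact (continuous_finsetSum _ fun s _ => hc r s).intervalIntegrable _ _
  have h2 : ∀ r ∈ R, ∫ x in (0:ℝ)..1, ∑ s ∈ R, (1 / ((r : ℝ) * s)) * (uu η (r * x) * uu η (s * x)) ≤
      ∑ s ∈ R, η ^ 2 / 4 * ((Nat.gcd r s : ℝ) ^ 2 / ((r : ℝ) ^ 2 * (s : ℝ) ^ 2)) := by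
    intro r hr
    rw [intervalIntegral.integral_finsetSum (fun s _ => (hc r s).intervalIntegrable _ _)]
    apply sum_le_sum
    intro s hs
    have hr' := mem_Ioc.1 (hR hr)
    have hs' := mem_Ioc.1 (hR hs)
    have hr0 : (0 : ℝ) < r := by exact_mod_cast (by omega : 0 < r)
    have hs0 : (0 : ℝ) < s := by exact_mod_cast (by omega : 0 < s)
    rw [intervalIntegral.integral_const_mul]
    have h3 := (abs_le.1 (integral_uu_le h0 (r := r) (s := s) (by omega) (by omega))).2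
    calc 1 / ((r : ℝ) * s) * ∫ x in (0:ℝ)..1, uu η (r * x) * uu η (s * x)
        ≤ 1 / ((r : ℝ) * s) * (η ^ 2 * (Nat.gcd r s : ℝ) ^ 2 / (4 * r * s)) :=
          mul_le_mul_of_nonneg_left h3 (by positivity)
      _ = η ^ 2 / 4 * ((Nat.gcd r s : ℝ) ^ 2 / ((r : ℝ) ^ 2 * (s : ℝ) ^ 2)) := by field_simp
  refine (sum_le_sum h2).trans ?_
  simp_rw [← mul_sum]
  have h3 := sum_gcd_le K M hK R hR
  calc η ^ 2 / 4 * ∑ r ∈ R, ∑ s ∈ R, (Nat.gcd r s : ℝ) ^ 2 / ((r : ℝ) ^ 2 * (s : ℝ) ^ 2)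
      ≤ η ^ 2 / 4 * (12 / K) := mul_le_mul_of_nonneg_left h3 (by positivity)
    _ = 3 * η ^ 2 / K := by ring

lemma integral_abs_SS {η : ℝ} (h0 : 0 < η) (K M : ℕ) (hK : 1 ≤ K) (R : Finset ℕ) (hR : R ⊆ Ioc K M) :
    ∫ x in (0:ℝ)..1, |SS R η x| ≤ Real.sqrt (3 / K) * η := by
  have hK0 : (0 : ℝ) < K := by exact_mod_cast hK
  set A := Real.sqrt (3 / K) * η with hA
  have hs : 0 < Real.sqrt (3 / K) := Real.sqrt_pos.2 (by positivity)
  have hA0 : 0 < A := mul_pos hs h0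
  have hA2 : A ^ 2 = 3 * η ^ 2 / K := by
    rw [hA, mul_pow, Real.sq_sqrt (by positivity)]; ring
  have h1 : ∀ x, |SS R η x| ≤ SS R η x ^ 2 / (2 * A) + A / 2 := by
    intro x
    rw [div_add_div _ _ (by positivity) (by norm_num), le_div_iff₀ (by positivity)]
    have := sq_nonneg (|SS R η x| - A)
    rw [← sq_abs (SS R η x)]
    nlinarith
  have h2 := integral_SS_sq h0.le K M hK R hR
  have hc := SS_continuous R η
  calc ∫ x in (0:ℝ)..1, |SS R η x| ≤ ∫ x in (0:ℝ)..1, (SS R η x ^ 2 / (2 * A) + A / 2) := by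
        apply intervalIntegral.integral_mono (by norm_num)
        · exact hc.abs.intervalIntegrable _ _
        · exact (((hc.pow 2).div_const _).add continuous_const).intervalIntegrable _ _
        · exact h1
    _ = (∫ x in (0:ℝ)..1, SS R η x ^ 2) / (2 * A) + A / 2 := by
        have e1 : IntervalIntegrable (fun x => SS R η x ^ 2 / (2 * A)) volume 0 1 :=
          ((hc.pow 2).div_const _).intervalIntegrable _ _
        have e2 : IntervalIntegrable (fun _ : ℝ => A / 2) volume 0 1 := continuous_const.intervalIntegrable _ _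
        rw [intervalIntegral.integral_add e1 e2, intervalIntegral.integral_div, intervalIntegral.integral_const]
        simp
    _ ≤ A ^ 2 / (2 * A) + A / 2 := by
        rw [hA2]
        gcongr
    _ = A := by field_simp; ring

lemma sum_inv_le_sqrt (M : ℕ) : ∑ r ∈ Icc 1 M, (1 : ℝ) / r ≤ 2 * Real.sqrt M := by
  induction M with
  | zero => simp
  | succ n ih =>
    rw [sum_Icc_succ_top (by omega)]
    have h1 : (0 : ℝ) ≤ Real.sqrt n := Real.sqrt_nonneg _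
    have h2 : (0 : ℝ) < Real.sqrt ((n + 1 : ℕ) : ℝ) := Real.sqrt_pos.2 (by positivity)
    have h3 : Real.sqrt n ^ 2 = n := Real.sq_sqrt (by positivity)
    have h4 : Real.sqrt ((n + 1 : ℕ) : ℝ) ^ 2 = ((n + 1 : ℕ) : ℝ) := Real.sq_sqrt (by positivity)
    have h5 : (1 : ℝ) ≤ Real.sqrt ((n + 1 : ℕ) : ℝ) := by
      rw [Real.one_le_sqrt]; push_cast; linarith [(Nat.cast_nonneg n : (0:ℝ) ≤ n)]
    have h6 : 1 / ((n + 1 : ℕ) : ℝ) ≤ 2 * Real.sqrt ((n + 1 : ℕ) : ℝ) - 2 * Real.sqrt n := by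
      generalize Real.sqrt ((n + 1 : ℕ) : ℝ) = p at *
      generalize Real.sqrt (n : ℝ) = q at *
      rw [← h4]
      rw [div_le_iff₀ (by positivity)]
      have h7 : p ^ 2 - q ^ 2 = 1 := by rw [h4, h3]; push_cast; ring
      have h8 : q ≤ p := by nlinarith
      have h9 : (p - q) * (p + q) = 1 := by linarith [h7, (by ring : (p - q) * (p + q) = p ^ 2 - q ^ 2)]
      have h10 : 1 ≤ (p - q) * (2 * p) := by nlinarith
      nlinarith
    linarith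

lemma abs_SS_le {η : ℝ} (h0 : 0 ≤ η) (K M : ℕ) (R : Finset ℕ) (hR : R ⊆ Ioc K M) (x : ℝ) :
    |SS R η x| ≤ η * Real.sqrt M := by
  unfold SS
  refine (abs_sum_le_sum_abs _ _).trans ?_
  have h1 : ∀ r ∈ R, |uu η (r * x) / r| ≤ η / 2 * (1 / r) := by
    intro r hr
    have hr' := mem_Ioc.1 (hR hr)
    have hr0 : (0 : ℝ) < r := by exact_mod_cast (by omega : 0 < r)
    rw [abs_div, abs_of_pos hr0, mul_one_div]
    exact div_le_div_of_nonneg_right (abs_uu_le h0 _) hr0.le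
  refine (sum_le_sum h1).trans ?_
  rw [← mul_sum]
  have h2 : ∑ r ∈ R, (1 : ℝ) / r ≤ ∑ r ∈ Icc 1 M, (1 : ℝ) / r := by
    apply sum_le_sum_of_subset_of_nonneg
    · intro r hr
      have hr' := mem_Ioc.1 (hR hr)
      exact mem_Icc.2 ⟨by omega, hr'.2⟩
    · intro _ _ _; positivity
  have h3 := h2.trans (sum_inv_le_sqrt M)
  calc η / 2 * ∑ r ∈ R, (1 : ℝ) / r ≤ η / 2 * (2 * Real.sqrt M) := mul_le_mul_of_nonneg_left h3 (by positivity)
    _ = η * Real.sqrt M := by ring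

lemma integral_SS_diff {η : ℝ} (h0 : 0 ≤ η) (h1 : η ≤ 1) (K M : ℕ) (R : Finset ℕ) (hR : R ⊆ Ioc K M) (x y : ℝ) :
    ∫ t in x..y, ∑ r ∈ R, hh η (r * t) = SS R η y - SS R η x := by
  rw [intervalIntegral.integral_finsetSum]
  · unfold SS
    rw [← sum_sub_distrib]
    apply sum_congr rfl
    intro r hr
    have hr' := mem_Ioc.1 (hR hr)
    have hr0 : (r : ℝ) ≠ 0 := by exact_mod_cast (by omega : r ≠ 0)
    rw [integral_hh_mul h0 h1 hr0, sub_div]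
  · intro r _
    apply intIntegrable_of_bdd ((hh_measurable η).comp (measurable_const.mul measurable_id)) 1
    intro t
    exact abs_hh_le h0 h1 _

end Pool.Agent.R361.FA
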