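import Mathlib
import Pool.Agent.R361.FA.Arith
import Pool.Agent.R361.FA.L2

/-!
# First approach times: Lebesgue measure on `[0,1)`, sieve indicators, Lemma A
-/

set_option autoImplicit false

namespace Pool.Agent.R361.FA

open Finset MeasureTheory

/-- Lebesgue measure on `[0,1)` -/
noncomputable def lam : Measure ℝ := volume.restrict (Set.Ico 0 1)

instance : IsProbabilityMeasure lam := by
  constructor
  unfold lam
  rw [Measure.restrict_apply_univ, Real.volume_Ico]
  norm_num

lemma integral_lam (f : ℝ → ℝ) : ∫ x, f x ∂lam = ∫ x in (0:ℝ)..1, f x := by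
  unfold lam
  rw [intervalIntegral.integral_of_le zero_le_one, Measure.restrict_congr_set Ico_ae_eq_Ioc]

lemma integrable_lam {f : ℝ → ℝ} (hf : Measurable f) (C : ℝ) (hC : ∀ x, |f x| ≤ C) : Integrable f lam := by
  refine Integrable.mono' (integrable_const C) hf.aestronglyMeasurable ?_
  exact Filter.Eventually.of_forall fun x => by rw [Real.norm_eq_abs]; exact hC x

lemma ae_lam : ∀ᵐ x ∂lam, 0 ≤ x ∧ x < 1 := by
  unfold lam
  rw [ae_restrict_iff' measurableSet_Ico]
  exact Filter.Eventually.of_forall fun x hx => hx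

lemma integral_fract {g : ℝ → ℝ} : ∫ x in (0:ℝ)..1, g (Int.fract x) = ∫ x in (0:ℝ)..1, g x := by
  rw [← integral_lam (fun x => g (Int.fract x)), ← integral_lam g]
  apply integral_congr_ae
  filter_upwards [ae_lam] with x hx
  rw [Int.fract_eq_self.2 hx]

lemma fract_periodic (g : ℝ → ℝ) : Function.Periodic (fun t => g (Int.fract t)) 1 := by
  intro t; simp only [Int.fract_add_one]

/-- equidistribution of `fract (s + n a)` -/
lemma equi_pos {g : ℝ → ℝ} (hg : Measurable g) (C : ℝ) (hC : ∀ x, |g x| ≤ C) (s : ℝ) (n : ℕ) (hn : 1 ≤ n) :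
    ∫ a, g (Int.fract (s + n * a)) ∂lam = ∫ x, g x ∂lam := by
  rw [integral_lam, integral_lam]
  set H : ℝ → ℝ := fun t => g (Int.fract (s + t)) with hH
  have hHp : Function.Periodic H 1 := by
    intro t
    simp only [hH]
    rw [← add_assoc, Int.fract_add_one]
  have hHm : Measurable H := hg.comp (measurable_fract.comp (measurable_const.add measurable_id))
  have h1 := integral_mul hHp (fun a b => intIntegrable_of_bdd hHm C (fun x => hC _) a b) n hn
  rw [h1]
  have h2 := integral_shift (fract_periodic g) s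
  have h3 : ∀ x, H x = g (Int.fract (x + s)) := by intro x; simp only [hH]; rw [add_comm]
  simp_rw [h3]
  rw [h2, integral_fract]

lemma equi_neg {g : ℝ → ℝ} (hg : Measurable g) (C : ℝ) (hC : ∀ x, |g x| ≤ C) (s : ℝ) (n : ℕ) (hn : 1 ≤ n) :
    ∫ a, g (Int.fract (s - n * a)) ∂lam = ∫ x, g x ∂lam := by
  rw [← equi_pos hg C hC (s - n) n hn, integral_lam, integral_lam]
  have h1 : ∫ x in (0:ℝ)..1, g (Int.fract (s - n * x)) = ∫ x in (0:ℝ)..1, g (Int.fract (s - n * (1 - x))) := by
    have := intervalIntegral.integral_comp_sub_left (a := 0) (b := 1) (fun x => g (Int.fract (s - n * x))) 1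
    rw [sub_self, sub_zero] at this
    exact this.symm
  rw [h1]
  congr 1
  ext x
  congr 2
  ring

lemma integral_ind_lt {η : ℝ} (h0 : 0 ≤ η) (h1 : η ≤ 1) :
    ∫ x, (if x < η then (1:ℝ) else 0) ∂lam = η := by
  have h2 : ∀ x : ℝ, (if x < η then (1:ℝ) else 0) = (Set.Iio η).indicator (fun _ => (1:ℝ)) x := by
    intro x; rw [Set.indicator_apply]; rfl
  simp_rw [h2]
  rw [integral_indicator measurableSet_Iio, setIntegral_const, smul_eq_mul, mul_one]
  unfold lam
  rw [measureReal_restrict_apply measurableSet_Iio]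
  have : Set.Iio η ∩ Set.Ico 0 1 = Set.Ico 0 η := by
    ext x
    simp only [Set.mem_inter_iff, Set.mem_Iio, Set.mem_Ico]
    constructor
    · rintro ⟨h, h', _⟩; exact ⟨h', h⟩
    · rintro ⟨h, h'⟩; exact ⟨h', h, by linarith⟩
  rw [this, measureReal_def, Real.volume_Ico, sub_zero, ENNReal.toReal_ofReal h0]

/-- the dilated indicator -/
lemma fract_div_lt {d : ℝ} (hd : d ≤ 1) {e : ℕ} (he : 1 ≤ e) (t : ℝ) :
    Int.fract (t / e) < d / e ↔ Int.fract t < d ∧ (e : ℤ) ∣ ⌊t⌋ := by
  have he0 : (0 : ℝ) < e := by exact_mod_cast he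
  constructor
  · intro h
    set n := ⌊t / e⌋ with hn
    have h1 : t / e = n + Int.fract (t / e) := (Int.floor_add_fract _).symm
    have h2 := Int.fract_nonneg (t / e)
    set φ := Int.fract (t / e)
    have h3 : t = e * n + e * φ := by
      rw [div_eq_iff he0.ne'] at h1
      rw [h1]; ring
    have h4 : e * φ < d := by
      rw [lt_div_iff₀ he0] at h; linarith
    have h5 : 0 ≤ e * φ := by positivity
    have h6 : ⌊t⌋ = (e : ℤ) * n := by
      rw [Int.floor_eq_iff]
      push_cast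
      constructor <;> linarith
    refine ⟨?_, ?_⟩
    · rw [Int.fract, h6]; push_cast; linarith
    · rw [h6]; exact Dvd.intro _ rfl
  · rintro ⟨h1, n, hn⟩
    have h2 : t = e * n + Int.fract t := by
      have := Int.floor_add_fract t
      rw [hn] at this
      push_cast at this
      exact this.symm
    have h3 : Int.fract (t / e) = Int.fract t / e := by
      rw [Int.fract_eq_iff]
      refine ⟨div_nonneg (Int.fract_nonneg _) he0.le, ?_, n, ?_⟩
      · have : (1 : ℝ) ≤ e := by exact_mod_cast he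
        rw [div_lt_one he0]
        linarith [Int.fract_lt_one t]
      · nth_rewrite 1 [h2]
        field_simp
        ring
    rw [h3]
    exact div_lt_div_of_pos_right h1 he0

/-- the sieved indicator -/
noncomputable def FF (d : ℝ) (q : ℕ) (t : ℝ) : ℝ :=
  if Int.fract t < d ∧ Int.gcd (Int.gcd ⌊t⌋ q) 210 = 1 then 1 else 0

lemma FF_nonneg (d : ℝ) (q : ℕ) (t : ℝ) : 0 ≤ FF d q t := by unfold FF; split_ifs <;> norm_num

lemma FF_eq {d : ℝ} (hd : d ≤ 1) (q : ℕ) (t : ℝ) :
    FF d q t = ∑ e ∈ D210 with e ∣ q, (mu e : ℝ) * (if Int.fract (t / e) < d / e then 1 else 0) := by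
  have h0 : ∀ e ∈ D210.filter (fun e => e ∣ q), (mu e : ℝ) * (if Int.fract (t / e) < d / e then 1 else 0) =
      if Int.fract t < d then (if (e : ℤ) ∣ ⌊t⌋ then (mu e : ℝ) else 0) else 0 := by
    intro e he
    rw [mem_filter] at he
    have := fract_div_lt hd (D210_pos he.1) t
    by_cases h1 : Int.fract t < d
    · by_cases h2 : (e : ℤ) ∣ ⌊t⌋
      · rw [if_pos (this.2 ⟨h1, h2⟩), if_pos h1, if_pos h2, mul_one]
      · rw [if_neg (fun h => h2 (this.1 h).2), if_pos h1, if_neg h2, mul_zero]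
    · rw [if_neg (fun h => h1 (this.1 h).1), if_neg h1, mul_zero]
  rw [sum_congr rfl h0]
  unfold FF
  by_cases h1 : Int.fract t < d
  · simp only [h1, true_and, if_true]
    rw [← sum_filter, filter_filter]
    have h2 := mu_gcd ⌊t⌋ (q : ℤ)
    have h3 : D210.filter (fun e : ℕ => e ∣ q ∧ (e : ℤ) ∣ ⌊t⌋) = D210.filter (fun e : ℕ => (e : ℤ) ∣ ⌊t⌋ ∧ (e : ℤ) ∣ (q : ℤ)) := by
      ext e
      rw [mem_filter, mem_filter, Int.natCast_dvd_natCast]
      tauto
    rw [h3, ← Int.cast_sum, h2]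
    split_ifs <;> simp
  · simp [h1]

lemma ind_measurable (η : ℝ) : Measurable (fun x : ℝ => if x < η then (1:ℝ) else 0) :=
  Measurable.ite measurableSet_Iio measurable_const measurable_const

lemma ind_abs_le (η x : ℝ) : |(if x < η then (1:ℝ) else 0)| ≤ 1 := by split_ifs <;> simp

/-- Lemma 0 -/
lemma integral_FF {d : ℝ} (hd0 : 0 ≤ d) (hd : d ≤ 1) (k : ℕ) (hk : 1 ≤ k) (x : ℝ) :
    ∫ a, FF d k (x - k * a) ∂lam = d * wt k := by
  simp_rw [FF_eq hd]
  rw [integral_finsetSum]
  · unfold wt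
    rw [mul_sum]
    apply sum_congr rfl
    intro e he
    rw [mem_filter] at he
    have he1 := D210_pos he.1
    have he0 : (0 : ℝ) < e := by exact_mod_cast he1
    obtain ⟨r, hr⟩ := he.2
    have hr1 : 1 ≤ r := by
      rcases Nat.eq_zero_or_pos r with h | h
      · rw [h, mul_zero] at hr; omega
      · exact h
    rw [integral_const_mul]
    have h1 : ∀ a : ℝ, (if Int.fract ((x - k * a) / e) < d / e then (1:ℝ) else 0) =
        (fun y : ℝ => if y < d / e then (1:ℝ) else 0) (Int.fract (x / e - r * a)) := by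
      intro a
      have : (x - k * a) / e = x / e - r * a := by
        have : (k : ℝ) = e * r := by exact_mod_cast hr
        rw [this]; field_simp
      rw [this]
    simp_rw [h1]
    rw [equi_neg (ind_measurable _) 1 (ind_abs_le _) (x / e) r hr1,
      integral_ind_lt (by positivity) (by
        rw [div_le_one he0]
        have : (1 : ℝ) ≤ e := by exact_mod_cast he1
        linarith)]
    ring
  · intro e _
    refine integrable_lam ?_ 1 ?_
    · refine measurable_const.mul ?_
      refine Measurable.ite (measurableSet_lt (measurable_fract.comp ?_) measurable_const) measurable_const measurable_const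
      exact (measurable_const.sub (measurable_const.mul measurable_id)).div_const _
    · intro a
      rw [abs_mul, abs_mu, one_mul]
      split_ifs <;> simp

/-- if the sieve condition fails, a prime divides everything -/
lemma exists_prime_of_not {t : ℝ} {k : ℕ} (h : Int.gcd (Int.gcd ⌊t⌋ k) 210 ≠ 1) :
    ∃ l : ℕ, 2 ≤ l ∧ ∃ k' : ℕ, k = l * k' ∧ ∃ p : ℤ, ⌊t⌋ = l * p := by
  obtain ⟨l, hl, hdvd⟩ := Nat.exists_prime_and_dvd h
  have h1 : ((l : ℕ) : ℤ) ∣ (Int.gcd ⌊t⌋ k : ℤ) := (Int.natCast_dvd_natCast.2 hdvd).trans (Int.gcd_dvd_left _ _)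
  have h2 : (l : ℤ) ∣ ⌊t⌋ := h1.trans (Int.gcd_dvd_left _ _)
  have h3 : (l : ℤ) ∣ (k : ℤ) := h1.trans (Int.gcd_dvd_right _ _)
  rw [Int.natCast_dvd_natCast] at h3
  obtain ⟨k', hk'⟩ := h3
  obtain ⟨p, hp⟩ := h2
  exact ⟨l, hl.two_le, k', hk', p, hp⟩

lemma sieve_A {d x a : ℝ} (hx0 : 0 ≤ x) (hxd : x < d) (hd : d ≤ 1) (j : ℕ)
    (h : ∃ k : ℕ, 1 ≤ k ∧ k ≤ j ∧ Int.fract (x - k * a) < d) : 1 ≤ ∑ k ∈ Icc 1 j, FF d k (x - k * a) := by
  classical
  have hex : ∃ k : ℕ, 1 ≤ k ∧ Int.fract (x - k * a) < d := by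
    obtain ⟨k, h1, _, h3⟩ := h; exact ⟨k, h1, h3⟩
  set k := Nat.find hex with hk
  obtain ⟨hk1, hk2⟩ := Nat.find_spec hex
  rw [← hk] at hk1 hk2
  have hkj : k ≤ j := by
    obtain ⟨k0, h1, h2, h3⟩ := h
    exact (Nat.find_min' hex ⟨h1, h3⟩).trans h2
  have hFF : FF d k (x - k * a) = 1 := by
    unfold FF
    rw [if_pos]
    refine ⟨hk2, ?_⟩
    by_contra hne
    obtain ⟨l, hl, k', hk', p, hp⟩ := exists_prime_of_not hne
    have hl0 : (0 : ℝ) < l := by exact_mod_cast (by omega : 0 < l)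
    have hl2 : (2 : ℝ) ≤ l := by exact_mod_cast hl
    have hk'1 : 1 ≤ k' := by
      rcases Nat.eq_zero_or_pos k' with h | h
      · rw [h, mul_zero] at hk'; omega
      · exact h
    have hlt : k' < k := by rw [hk']; nlinarith
    refine Nat.find_min hex hlt ⟨hk'1, ?_⟩
    set θ := Int.fract (x - k * a) with hθ
    have hθ0 : 0 ≤ θ := Int.fract_nonneg _
    have h1 : x - k * a = l * p + θ := by
      have := Int.floor_add_fract (x - k * a)
      rw [hp] at this; push_cast at this; rw [hθ]; exact this.symm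
    have h2 : (k : ℝ) = l * k' := by exact_mod_cast hk'
    have h3 : x - k' * a = p + (x * (l - 1) + θ) / l := by
      rw [h2] at h1
      field_simp
      linarith
    have h4 : (x * (l - 1) + θ) / l < d := by
      rw [div_lt_iff₀ hl0]; nlinarith
    have h5 : 0 ≤ (x * (l - 1) + θ) / l := by
      apply div_nonneg _ hl0.le
      have : 0 ≤ x * (l - 1) := mul_nonneg hx0 (by linarith)
      linarith
    have h6 : Int.fract (x - k' * a) = (x * (l - 1) + θ) / l := by
      rw [Int.fract_eq_iff]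
      exact ⟨h5, by linarith, p, by rw [h3]; ring⟩
    rw [h6]; exact h4
  rw [← hFF]
  exact single_le_sum (f := fun k : ℕ => FF d k (x - k * a)) (fun i _ => FF_nonneg _ _ _) (mem_Icc.2 ⟨hk1, hkj⟩)

lemma sieve_B {d c : ℝ} (hd : d ≤ 1) (K M : ℕ)
    (h : ∃ k : ℕ, 1 ≤ k ∧ k ≤ M ∧ Int.fract (k * c) < d) :
    (∃ k : ℕ, 1 ≤ k ∧ k ≤ K ∧ Int.fract (k * c) < d) ∨ 1 ≤ ∑ k ∈ Ioc K M, FF d k (k * c) := by
  classical
  have hex : ∃ k : ℕ, 1 ≤ k ∧ Int.fract (k * c) < d := by
    obtain ⟨k, h1, _, h3⟩ := h; exact ⟨k, h1, h3⟩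
  set k := Nat.find hex with hk
  obtain ⟨hk1, hk2⟩ := Nat.find_spec hex
  rw [← hk] at hk1 hk2
  have hkj : k ≤ M := by
    obtain ⟨k0, h1, h2, h3⟩ := h
    exact (Nat.find_min' hex ⟨h1, h3⟩).trans h2
  by_cases hkK : k ≤ K
  · exact Or.inl ⟨k, hk1, hkK, hk2⟩
  right
  have hFF : FF d k (k * c) = 1 := by
    unfold FF
    rw [if_pos]
    refine ⟨hk2, ?_⟩
    by_contra hne
    obtain ⟨l, hl, k', hk', p, hp⟩ := exists_prime_of_not hne
    have hl0 : (0 : ℝ) < l := by exact_mod_cast (by omega : 0 < l)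
    have hl2 : (2 : ℝ) ≤ l := by exact_mod_cast hl
    have hk'1 : 1 ≤ k' := by
      rcases Nat.eq_zero_or_pos k' with h | h
      · rw [h, mul_zero] at hk'; omega
      · exact h
    have hlt : k' < k := by rw [hk']; nlinarith
    refine Nat.find_min hex hlt ⟨hk'1, ?_⟩
    set θ := Int.fract (k * c) with hθ
    have hθ0 : 0 ≤ θ := Int.fract_nonneg _
    have h1 : k * c = l * p + θ := by
      have := Int.floor_add_fract (k * c)
      rw [hp] at this; push_cast at this; rw [hθ]; exact this.symm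
    have h2 : (k : ℝ) = l * k' := by exact_mod_cast hk'
    have h3 : k' * c = p + θ / l := by
      rw [h2] at h1
      field_simp
      linarith
    have h4 : θ / l < d := by
      rw [div_lt_iff₀ hl0]; nlinarith
    have h5 : 0 ≤ θ / l := by positivity
    have h6 : Int.fract (k' * c) = θ / l := by
      rw [Int.fract_eq_iff]
      exact ⟨h5, by linarith, p, by rw [h3]; ring⟩
    rw [h6]; exact h4
  rw [← hFF]
  exact single_le_sum (f := fun k : ℕ => FF d k (k * c)) (fun i _ => FF_nonneg _ _ _) (mem_Ioc.2 ⟨by omega, hkj⟩)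

end Pool.Agent.R361.FA
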