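import Mathlib
import Pool.Agent.R361.FA.Lam

/-!
# First approach times: Lemma A
-/

set_option autoImplicit false

namespace Pool.Agent.R361.FA

open Finset MeasureTheory

/-- some `j < M` has `fract (c + j a) < d` -/
def Cov (d : ℝ) (M : ℕ) (a c : ℝ) : Prop := ∃ j : ℕ, j < M ∧ Int.fract (c + j * a) < d

/-- `j` is the first index with `fract (c + j a) < d` -/
def First (d : ℝ) (j : ℕ) (a c : ℝ) : Prop :=
  Int.fract (c + j * a) < d ∧ ∀ i : ℕ, i < j → d ≤ Int.fract (c + i * a)

open Classical in
/-- indicator of a relation -/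
noncomputable def ind (p : ℝ → ℝ → Prop) (a c : ℝ) : ℝ := if p a c then 1 else 0

lemma ind_congr {p q : ℝ → ℝ → Prop} {a c a' c' : ℝ} (h : p a c ↔ q a' c') : ind p a c = ind q a' c' := by
  unfold ind
  by_cases h1 : p a c
  · rw [if_pos h1, if_pos (h.1 h1)]
  · rw [if_neg h1, if_neg (fun h2 => h1 (h.2 h2))]

lemma ind_le_one (p : ℝ → ℝ → Prop) (a c : ℝ) : ind p a c ≤ 1 := by unfold ind; split_ifs <;> norm_num

lemma ind_nonneg (p : ℝ → ℝ → Prop) (a c : ℝ) : 0 ≤ ind p a c := by unfold ind; split_ifs <;> norm_num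

lemma abs_ind_le (p : ℝ → ℝ → Prop) (a c : ℝ) : |ind p a c| ≤ 1 := by unfold ind; split_ifs <;> norm_num

lemma ind_measurable2 {p : ℝ → ℝ → Prop} (hp : MeasurableSet {x : ℝ × ℝ | p x.1 x.2}) :
    Measurable (fun x : ℝ × ℝ => ind p x.1 x.2) := by
  classical
  unfold ind
  exact Measurable.ite hp measurable_const measurable_const

lemma meas_fract_lt (d : ℝ) {f : ℝ × ℝ → ℝ} (hf : Measurable f) :
    MeasurableSet {x : ℝ × ℝ | Int.fract (f x) < d} :=
  measurableSet_lt (measurable_fract.comp hf) measurable_const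

lemma meas_lin (j : ℕ) : Measurable (fun x : ℝ × ℝ => x.2 + j * x.1) :=
  measurable_snd.add (measurable_const.mul measurable_fst)

lemma meas_lin' (j : ℕ) : Measurable (fun x : ℝ × ℝ => x.2 - j * x.1) :=
  measurable_snd.sub (measurable_const.mul measurable_fst)

lemma meas_Cov (d : ℝ) (M : ℕ) : MeasurableSet {x : ℝ × ℝ | Cov d M x.1 x.2} := by
  have : {x : ℝ × ℝ | Cov d M x.1 x.2} = ⋃ j ∈ Finset.range M, {x : ℝ × ℝ | Int.fract (x.2 + j * x.1) < d} := by
    ext x
    simp [Cov]
  rw [this]
  exact Finset.measurableSet_biUnion _ fun j _ => meas_fract_lt d (meas_lin j)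

lemma meas_First (d : ℝ) (j : ℕ) : MeasurableSet {x : ℝ × ℝ | First d j x.1 x.2} := by
  have : {x : ℝ × ℝ | First d j x.1 x.2} = {x : ℝ × ℝ | Int.fract (x.2 + j * x.1) < d} ∩ {x : ℝ × ℝ | Cov d j x.1 x.2}ᶜ := by
    ext x
    simp [Cov, First]
  rw [this]
  exact (meas_fract_lt d (meas_lin j)).inter (meas_Cov d j).compl

lemma integrable_prod {f : ℝ × ℝ → ℝ} (hf : Measurable f) (C : ℝ) (hC : ∀ x, |f x| ≤ C) : Integrable f (lam.prod lam) := by
  refine Integrable.mono' (integrable_const C) hf.aestronglyMeasurable ?_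
  exact Filter.Eventually.of_forall fun x => by rw [Real.norm_eq_abs]; exact hC x

lemma integrable_inner {f : ℝ × ℝ → ℝ} (hf : Measurable f) (C : ℝ) (hC : ∀ x, |f x| ≤ C) :
    Integrable (fun a => ∫ c, f (a, c) ∂lam) lam :=
  (integrable_prod hf C hC).integral_prod_left

/-- Lemma A -/
lemma lemmaA {d : ℝ} (hd0 : 0 < d) (hd : d ≤ 1) (j : ℕ) :
    d * (1 - d * Wt j) ≤ ∫ a, ∫ c, ind (First d j) a c ∂lam ∂lam := by
  classical
  set G : ℝ → ℝ → Prop := fun a x => Int.fract x < d ∧ ∀ k : ℕ, 1 ≤ k → k ≤ j → d ≤ Int.fract (x - k * a) with hG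
  have hGm : MeasurableSet {x : ℝ × ℝ | G x.1 x.2} := by
    have : {x : ℝ × ℝ | G x.1 x.2} = {x : ℝ × ℝ | Int.fract x.2 < d} ∩
        (⋃ k ∈ Finset.Icc 1 j, {x : ℝ × ℝ | Int.fract (x.2 - k * x.1) < d})ᶜ := by
      ext x
      simp [hG]
    rw [this]
    exact (meas_fract_lt d measurable_snd).inter
      (Finset.measurableSet_biUnion _ fun k _ => meas_fract_lt d (meas_lin' k)).compl
  have h1 : ∀ a c, ind (First d j) a c = ind G a (c + j * a) := by
    intro a c
    have : First d j a c ↔ G a (c + j * a) := by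
      unfold First
      simp only [hG]
      refine and_congr_right fun _ => ⟨fun h k hk1 hkj => ?_, fun h i hi => ?_⟩
      · have := h (j - k) (by omega)
        rw [Nat.cast_sub hkj] at this
        have e : c + j * a - k * a = c + ((j : ℝ) - k) * a := by ring
        rw [e]; exact this
      · have := h (j - i) (by omega) (by omega)
        rw [Nat.cast_sub hi.le] at this
        have e : c + j * a - ((j : ℝ) - i) * a = c + i * a := by ring
        rw [e] at this; exact this
    exact ind_congr this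
  have h2 : ∀ a, ∫ c, ind (First d j) a c ∂lam = ∫ c, ind G a c ∂lam := by
    intro a
    simp_rw [h1]
    rw [integral_lam, integral_lam]
    have hper : Function.Periodic (fun x => ind G a x) 1 := by
      intro x
      have : G a (x + 1) ↔ G a x := by
        simp only [hG, Int.fract_add_one]
        refine and_congr_right fun _ => forall_congr' fun k => ?_
        have e : x + 1 - k * a = x - k * a + 1 := by ring
        rw [e, Int.fract_add_one]
      exact ind_congr this
    exact integral_shift hper (j * a)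
  simp_rw [h2]
  have hGi : Integrable (Function.uncurry (fun a c => ind G a c)) (lam.prod lam) :=
    integrable_prod (ind_measurable2 hGm) 1 (fun x => abs_ind_le _ _ _)
  rw [integral_integral_swap hGi]
  have h3 : ∀ᵐ x ∂lam, (1 - d * Wt j) * (if x < d then (1:ℝ) else 0) ≤ ∫ a, ind G a x ∂lam := by
    filter_upwards [ae_lam] with x hx
    by_cases hxd : x < d
    · rw [if_pos hxd, mul_one]
      have h4 : ∀ a, 1 - ∑ k ∈ Icc 1 j, FF d k (x - k * a) ≤ ind G a x := by
        intro a
        by_cases hGx : G a x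
        · have : ind G a x = 1 := by unfold ind; rw [if_pos hGx]
          rw [this]
          have := sum_nonneg (s := Icc 1 j) (f := fun k : ℕ => FF d k (x - k * a)) (fun k _ => FF_nonneg _ _ _)
          linarith
        · have : ind G a x = 0 := by unfold ind; rw [if_neg hGx]
          rw [this]
          have hex : ∃ k : ℕ, 1 ≤ k ∧ k ≤ j ∧ Int.fract (x - k * a) < d := by
            by_contra hne
            push Not at hne
            apply hGx
            refine ⟨?_, fun k h1 h2 => hne k h1 h2⟩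
            rw [Int.fract_eq_self.2 hx]; exact hxd
          have := sieve_A hx.1 hxd hd j hex
          linarith
      have h5 : ∀ k ∈ Icc 1 j, Integrable (fun a => FF d k (x - k * a)) lam := by
        intro k _
        refine integrable_lam ?_ 1 ?_
        · unfold FF
          refine Measurable.ite ?_ measurable_const measurable_const
          have hm : Measurable (fun a : ℝ => x - k * a) := measurable_const.sub (measurable_const.mul measurable_id)
          refine MeasurableSet.inter (measurableSet_lt (measurable_fract.comp hm) measurable_const) ?_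
          have hfl : Measurable (fun a : ℝ => ⌊x - k * a⌋) := Int.measurable_floor.comp hm
          exact hfl (MeasurableSet.of_discrete (s := {n : ℤ | Int.gcd (Int.gcd n k) 210 = 1}))
        · intro a; unfold FF; split_ifs <;> simp
      have h6 : ∫ a, (1 - ∑ k ∈ Icc 1 j, FF d k (x - k * a)) ∂lam = 1 - d * Wt j := by
        rw [integral_sub (integrable_const _) (integrable_finsetSum _ h5), integral_finsetSum _ h5]
        have h7 : ∀ k ∈ Icc 1 j, ∫ a, FF d k (x - k * a) ∂lam = d * wt k := fun k hk =>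
          integral_FF hd0.le hd k (mem_Icc.1 hk).1 x
        rw [sum_congr rfl h7, ← mul_sum]
        simp [Wt]
      rw [← h6]
      refine integral_mono ?_ ?_ h4
      · exact (integrable_const _).sub (integrable_finsetSum _ h5)
      · refine integrable_lam ?_ 1 (fun a => abs_ind_le _ _ _)
        exact (ind_measurable2 hGm).comp (measurable_id.prodMk measurable_const)
    · rw [if_neg hxd, mul_zero]
      exact integral_nonneg fun a => ind_nonneg _ _ _
  have h8 : ∫ x, (1 - d * Wt j) * (if x < d then (1:ℝ) else 0) ∂lam = d * (1 - d * Wt j) := by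
    rw [integral_const_mul, integral_ind_lt hd0.le hd]; ring
  rw [← h8]
  refine integral_mono_ae ?_ ?_ h3
  · exact (integrable_lam (ind_measurable d) 1 (ind_abs_le d)).const_mul _
  · exact hGi.integral_prod_right

/-- the window `M' ≤ σ < M` -/
def Win (d : ℝ) (M' M : ℕ) (a c : ℝ) : Prop := Cov d M a c ∧ ¬ Cov d M' a c

lemma meas_Win (d : ℝ) (M' M : ℕ) : MeasurableSet {x : ℝ × ℝ | Win d M' M x.1 x.2} := by
  have : {x : ℝ × ℝ | Win d M' M x.1 x.2} = {x : ℝ × ℝ | Cov d M x.1 x.2} ∩ {x : ℝ × ℝ | Cov d M' x.1 x.2}ᶜ := rfl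
  rw [this]
  exact (meas_Cov d M).inter (meas_Cov d M').compl

lemma sum_First_le_Win (d : ℝ) (M' M : ℕ) (a c : ℝ) :
    ∑ j ∈ Ico M' M, ind (First d j) a c ≤ ind (Win d M' M) a c := by
  classical
  by_cases h : ∃ j ∈ Ico M' M, First d j a c
  · obtain ⟨j, hj, hF⟩ := h
    rw [sum_eq_single j]
    · have hW : Win d M' M a c := by
        refine ⟨⟨j, (mem_Ico.1 hj).2, hF.1⟩, ?_⟩
        rintro ⟨i, hi, hi2⟩
        exact absurd (hF.2 i (by have := (mem_Ico.1 hj).1; omega)) (not_le.2 hi2)
      unfold ind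
      rw [if_pos hF, if_pos hW]
    · intro i _ hij
      unfold ind
      rw [if_neg]
      intro hFi
      rcases lt_or_gt_of_ne hij with h | h
      · exact absurd (hF.2 i h) (not_le.2 hFi.1)
      · exact absurd (hFi.2 j h) (not_le.2 hF.1)
    · intro h; exact absurd hj h
  · push Not at h
    rw [sum_eq_zero]
    · exact ind_nonneg _ _ _
    · intro j hj
      unfold ind
      rw [if_neg (h j hj)]

/-- lower bound for the measure of a window -/
lemma Win_lower {d : ℝ} (hd0 : 0 < d) (hd : d ≤ 1) (M' M : ℕ) (h : M' ≤ M) :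
    ((M : ℝ) - M') * (d * (1 - d * Wt M)) ≤ ∫ a, ∫ c, ind (Win d M' M) a c ∂lam ∂lam := by
  have hF : ∀ j, Integrable (fun x : ℝ × ℝ => ind (First d j) x.1 x.2) (lam.prod lam) := fun j =>
    integrable_prod (ind_measurable2 (meas_First d j)) 1 (fun x => abs_ind_le _ _ _)
  have hW : Integrable (fun x : ℝ × ℝ => ind (Win d M' M) x.1 x.2) (lam.prod lam) :=
    integrable_prod (ind_measurable2 (meas_Win d M' M)) 1 (fun x => abs_ind_le _ _ _)
  have h1 : ∑ j ∈ Ico M' M, ∫ x, ind (First d j) x.1 x.2 ∂(lam.prod lam) ≤ ∫ x, ind (Win d M' M) x.1 x.2 ∂(lam.prod lam) := by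
    rw [← integral_finsetSum _ (fun j _ => hF j)]
    exact integral_mono (integrable_finsetSum _ fun j _ => hF j) hW (fun x => sum_First_le_Win d M' M x.1 x.2)
  rw [integral_prod _ hW] at h1
  refine le_trans ?_ h1
  have h2 : ∀ j ∈ Ico M' M, d * (1 - d * Wt M) ≤ ∫ x, ind (First d j) x.1 x.2 ∂(lam.prod lam) := by
    intro j hj
    rw [integral_prod _ (hF j)]
    refine le_trans ?_ (lemmaA hd0 hd j)
    have := Wt_mono (mem_Ico.1 hj).2.le
    have h3 := mul_le_mul_of_nonneg_left this hd0.le
    exact mul_le_mul_of_nonneg_left (by linarith) hd0.le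
  refine le_trans (le_of_eq ?_) (sum_le_sum h2)
  rw [sum_const, Nat.card_Ico, nsmul_eq_mul, Nat.cast_sub h]

end Pool.Agent.R361.FA
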