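import Mathlib
import Pool.Agent.R361.FA.LemA

/-!
# First approach times: Lemma U and the oscillation bound
-/

set_option autoImplicit false

namespace Pool.Agent.R361.FA

open Finset MeasureTheory

/-- the union of the intervals `[x, x+d)` -/
def ZZ (d : ℝ) (P : Finset ℝ) : Set ℝ := {t | ∃ x ∈ P, x ≤ t ∧ t < x + d}

lemma ZZ_meas (d : ℝ) (P : Finset ℝ) : MeasurableSet (ZZ d P) := by
  have : ZZ d P = ⋃ x ∈ P, Set.Ico x (x + d) := by
    ext t
    simp only [ZZ, Set.mem_ofPred_eq, Set.mem_iUnion, Set.mem_Ico, exists_prop]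
  rw [this]
  exact Finset.measurableSet_biUnion _ fun _ _ => measurableSet_Ico

lemma lemmaU {f Φ : ℝ → ℝ} (hf : Integrable f) (hΦ : ∀ x y, x ≤ y → ∫ t in Set.Ico x y, f t = Φ y - Φ x)
    {d : ℝ} (hd : 0 < d) (P : Finset ℝ) : ∀ z, (∀ x ∈ P, x < z) →
    |∫ t in ZZ d P ∩ Set.Iio z, f t| ≤ ∑ x ∈ P, (2 * |Φ x| + |Φ (x + d)|) + |Φ z| := by
  induction P using Finset.induction_on_max with
  | empty =>
    intro z _
    have : ZZ d ∅ ∩ Set.Iio z = ∅ := by ext t; simp [ZZ]
    rw [this]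
    simp
  | insert a s ha ih =>
    intro z hz
    have haz : a < z := hz a (mem_insert_self a s)
    have has : a ∉ s := fun h => lt_irrefl _ (ha a h)
    have hset : ZZ d (insert a s) ∩ Set.Iio z = (ZZ d s ∩ Set.Iio a) ∪ Set.Ico a (min (a + d) z) := by
      ext t
      simp only [ZZ, Set.mem_inter_iff, Set.mem_ofPred_eq, mem_insert, Set.mem_Iio, Set.mem_union, Set.mem_Ico, lt_min_iff]
      constructor
      · rintro ⟨⟨x, hx, h1, h2⟩, h3⟩
        by_cases hta : t < a
        · left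
          rcases hx with rfl | hx
          · exact absurd hta (not_lt.2 h1)
          · exact ⟨⟨x, hx, h1, h2⟩, hta⟩
        · right
          push Not at hta
          rcases hx with rfl | hx
          · exact ⟨h1, h2, h3⟩
          · exact ⟨hta, by linarith [ha x hx], h3⟩
      · rintro (⟨⟨x, hx, h1, h2⟩, h3⟩ | ⟨h1, h2, h3⟩)
        · exact ⟨⟨x, Or.inr hx, h1, h2⟩, h3.trans haz⟩
        · exact ⟨⟨a, Or.inl rfl, h1, h2⟩, h3⟩
    have hdisj : Disjoint (ZZ d s ∩ Set.Iio a) (Set.Ico a (min (a + d) z)) := by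
      rw [Set.disjoint_left]
      rintro t ⟨_, h1⟩ ⟨h2, _⟩
      exact absurd h1 (not_lt.2 h2)
    rw [hset, setIntegral_union hdisj measurableSet_Ico hf.integrableOn hf.integrableOn]
    have hle : a ≤ min (a + d) z := le_min (by linarith) haz.le
    rw [hΦ _ _ hle, sum_insert has]
    have h1 := ih a ha
    have h2 : |Φ (min (a + d) z)| ≤ |Φ (a + d)| + |Φ z| := by
      rcases min_choice (a + d) z with h | h <;> rw [h]
      · linarith [abs_nonneg (Φ z)]
      · linarith [abs_nonneg (Φ (a + d))]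
    calc |(∫ t in ZZ d s ∩ Set.Iio a, f t) + (Φ (min (a + d) z) - Φ a)|
        ≤ |(∫ t in ZZ d s ∩ Set.Iio a, f t)| + (|Φ (min (a + d) z)| + |Φ a|) :=
          (abs_add_le _ _).trans (add_le_add le_rfl (abs_sub _ _))
      _ ≤ 2 * |Φ a| + |Φ (a + d)| + ∑ x ∈ s, (2 * |Φ x| + |Φ (x + d)|) + |Φ z| := by linarith

/-- clamp to `[d, 1]` -/
noncomputable def TT (d x : ℝ) : ℝ := max d (min x 1)

lemma TT_continuous (d : ℝ) : Continuous (TT d) := continuous_const.max (continuous_id.min continuous_const)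

/-- the primitive of the truncation -/
lemma clamp_integral {f0 Ψ : ℝ → ℝ} (hΨ : ∀ x y, ∫ t in x..y, f0 t = Ψ y - Ψ x) {d : ℝ} (hd : d ≤ 1) (x y : ℝ) (hxy : x ≤ y) :
    ∫ t in Set.Ico x y, (Set.Ico d 1).indicator f0 t = Ψ (TT d y) - Ψ (TT d x) := by
  rw [setIntegral_indicator measurableSet_Ico, Set.Ico_inter_Ico, ← hΨ]
  by_cases h : max x d ≤ min y 1
  · have h1 : TT d y = min y 1 := by
      unfold TT; exact max_eq_right ((le_max_right _ _).trans h)
    have h2 : TT d x = max x d := by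
      unfold TT
      rw [min_eq_left ((le_max_left _ _).trans (h.trans (min_le_right _ _))), max_comm]
    rw [h1, h2, intervalIntegral.integral_of_le h]
    exact setIntegral_congr_set Ico_ae_eq_Ioc
  · push Not at h
    rw [Set.Ico_eq_empty (not_lt.2 h.le)]
    have : TT d x = TT d y := by
      unfold TT
      rcases lt_max_iff.1 h with h1 | h1
      · rcases min_lt_iff.1 h1 with h2 | h2
        · linarith
        · rw [min_eq_right h2.le, min_eq_right (h2.le.trans hxy)]
      · rcases min_lt_iff.1 h1 with h2 | h2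
        · rw [max_eq_left ((min_le_left _ _).trans (hxy.trans h2.le)), max_eq_left ((min_le_left _ _).trans h2.le)]
        · linarith
    rw [this]
    simp

/-- the starting points of the intervals -/
noncomputable def PP (M : ℕ) (a : ℝ) : Finset ℝ := (range M).image (fun j : ℕ => Int.fract (0 - j * a))

lemma Cov_iff {d c : ℝ} (hc0 : d ≤ c) (hc1 : c < 1) (hd : 0 < d) (M : ℕ) (a : ℝ) :
    Cov d M a c ↔ c ∈ ZZ d (PP M a) := by
  have key : ∀ j : ℕ, Int.fract (c + j * a) < d ↔ Int.fract (0 - j * a) ≤ c ∧ c < Int.fract (0 - j * a) + d := by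
    intro j
    set x := Int.fract (0 - (j : ℝ) * a) with hx
    have hx0 : 0 ≤ x := Int.fract_nonneg _
    have hx1 : x < 1 := Int.fract_lt_one _
    have h1 : Int.fract (c + j * a) = Int.fract (c - x) := by
      have : c + j * a = (c - x) + ((-⌊0 - (j : ℝ) * a⌋ : ℤ) : ℝ) := by
        rw [hx, Int.fract]; push_cast; ring
      rw [this, Int.fract_add_intCast]
    rw [h1]
    by_cases hcx : x ≤ c
    · have h2 : Int.fract (c - x) = c - x := Int.fract_eq_self.2 ⟨by linarith, by linarith⟩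
      rw [h2]
      constructor
      · intro h; exact ⟨hcx, by linarith⟩
      · intro h; linarith [h.2]
    · push Not at hcx
      have h2 : Int.fract (c - x) = c - x + 1 := by
        rw [Int.fract_eq_iff]
        exact ⟨by linarith, by linarith, -1, by push_cast; ring⟩
      rw [h2]
      constructor
      · intro h; linarith
      · intro h; linarith [h.1]
  unfold Cov ZZ PP
  simp only [Set.mem_ofPred_eq, mem_image, mem_range]
  constructor
  · rintro ⟨j, hj, h⟩
    exact ⟨_, ⟨j, hj, rfl⟩, (key j).1 h⟩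
  · rintro ⟨x, ⟨j, hj, rfl⟩, h⟩
    exact ⟨j, hj, (key j).2 h⟩

/-- the bound `B(a)` -/
noncomputable def BB (Ψ : ℝ → ℝ) (d : ℝ) (M : ℕ) (a : ℝ) : ℝ :=
  ∑ j ∈ range M, (2 * |Ψ (TT d (Int.fract (0 - j * a)))| + |Ψ (TT d (Int.fract (0 - j * a) + d))|) + |Ψ (TT d 3)|

lemma sum_image_le' {P : Finset ℕ} {g : ℕ → ℝ} {w : ℝ → ℝ} (hw : ∀ x, 0 ≤ w x) :
    ∑ x ∈ P.image g, w x ≤ ∑ j ∈ P, w (g j) := by
  classical
  induction P using Finset.induction_on with
  | empty => simp
  | insert a s ha ih =>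
    rw [image_insert, sum_insert ha]
    by_cases h : g a ∈ s.image g
    · rw [insert_eq_of_mem h]; linarith [hw (g a)]
    · rw [sum_insert h]; linarith

/-- oscillation bound over the covered set -/
lemma osc_bound {f0 Ψ : ℝ → ℝ} (hf0 : Measurable f0) (C : ℝ) (hC : ∀ x, |f0 x| ≤ C)
    (hΨ : ∀ x y, ∫ t in x..y, f0 t = Ψ y - Ψ x) {d : ℝ} (hd0 : 0 < d) (hd : d ≤ 1) (M : ℕ) (a : ℝ) :
    |∫ c in {c | Cov d M a c} ∩ Set.Ico d 1, f0 c| ≤ BB Ψ d M a := by
  have h1 : {c | Cov d M a c} ∩ Set.Ico d 1 = (ZZ d (PP M a) ∩ Set.Iio 3) ∩ Set.Ico d 1 := by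
    ext c
    simp only [Set.mem_inter_iff, Set.mem_ofPred_eq, Set.mem_Ico, Set.mem_Iio]
    constructor
    · rintro ⟨h, h1, h2⟩
      exact ⟨⟨(Cov_iff h1 h2 hd0 M a).1 h, by linarith⟩, h1, h2⟩
    · rintro ⟨⟨h, _⟩, h1, h2⟩
      exact ⟨(Cov_iff h1 h2 hd0 M a).2 h, h1, h2⟩
  rw [h1, ← setIntegral_indicator measurableSet_Ico]
  have hfi : Integrable ((Set.Ico d 1).indicator f0) := by
    rw [integrable_indicator_iff measurableSet_Ico]
    refine Measure.integrableOn_of_bounded (M := C) ?_ hf0.aestronglyMeasurable ?_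
    · rw [Real.volume_Ico]; exact ENNReal.ofReal_ne_top
    · exact Filter.Eventually.of_forall fun x => by rw [Real.norm_eq_abs]; exact hC x
  have h2 := lemmaU (Φ := fun x => Ψ (TT d x)) hfi (fun x y hxy => clamp_integral hΨ hd x y hxy) hd0 (PP M a) 3 (by
    intro x hx
    unfold PP at hx
    rw [mem_image] at hx
    obtain ⟨j, _, rfl⟩ := hx
    linarith [Int.fract_lt_one (0 - (j : ℝ) * a)])
  refine h2.trans ?_
  unfold BB
  refine add_le_add ?_ le_rfl
  unfold PP
  exact sum_image_le' (w := fun x => 2 * |Ψ (TT d x)| + |Ψ (TT d (x + d))|) (fun x => by positivity)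

end Pool.Agent.R361.FA
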