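import Mathlib
import Pool.Agent.R361.FA.LemU

/-!
# First approach times: Lemma B (decorrelation)
-/

set_option autoImplicit false

namespace Pool.Agent.R361.FA

open Finset MeasureTheory

/-- the index set `K/e < r ≤ M/e` -/
def Re (K M e : ℕ) : Finset ℕ := (Icc 1 M).filter (fun r => K < e * r ∧ e * r ≤ M)

/-- the primitive -/
noncomputable def Psi (d : ℝ) (K M : ℕ) (x : ℝ) : ℝ := ∑ e ∈ D210, (mu e : ℝ) * SS (Re K M e) (d / e) x

/-- the counting function -/
noncomputable def NN (d : ℝ) (K M : ℕ) (c : ℝ) : ℝ := ∑ q ∈ Ioc K M, FF d q (q * c)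

/-- its mean -/
noncomputable def EN (d : ℝ) (K M : ℕ) : ℝ := d * ∑ q ∈ Ioc K M, wt q

/-- the centred counting function -/
noncomputable def f00 (d : ℝ) (K M : ℕ) (c : ℝ) : ℝ := NN d K M c - EN d K M

lemma sum_reindex (K M e : ℕ) (he : 1 ≤ e) (g : ℕ → ℝ) :
    ∑ q ∈ Ioc K M with e ∣ q, g q = ∑ r ∈ Re K M e, g (e * r) := by
  have : (Ioc K M).filter (fun q => e ∣ q) = (Re K M e).image (fun r => e * r) := by
    ext q
    rw [mem_filter, mem_Ioc, mem_image]
    constructor
    · rintro ⟨⟨h1, h2⟩, r, rfl⟩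
      refine ⟨r, ?_, rfl⟩
      unfold Re
      rw [mem_filter, mem_Icc]
      have hr : 1 ≤ r := by
        rcases Nat.eq_zero_or_pos r with h | h
        · rw [h, mul_zero] at h1; omega
        · exact h
      have : r ≤ e * r := Nat.le_mul_of_pos_left _ (by omega)
      exact ⟨⟨hr, by omega⟩, h1, h2⟩
    · rintro ⟨r, hr, rfl⟩
      unfold Re at hr
      rw [mem_filter] at hr
      exact ⟨hr.2, Dvd.intro _ rfl⟩
  rw [this, sum_image (fun a _ b _ h => Nat.eq_of_mul_eq_mul_left (by omega) h)]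

lemma f00_eq {d : ℝ} (hd : d ≤ 1) (K M : ℕ) (c : ℝ) :
    f00 d K M c = ∑ e ∈ D210, (mu e : ℝ) * ∑ r ∈ Re K M e, hh (d / e) (r * c) := by
  unfold f00 NN EN
  simp_rw [FF_eq hd]
  have h1 : d * ∑ q ∈ Ioc K M, wt q = ∑ q ∈ Ioc K M, ∑ e ∈ D210 with e ∣ q, (mu e : ℝ) * (d / e) := by
    rw [mul_sum]
    apply sum_congr rfl
    intro q _
    unfold wt
    rw [mul_sum]
    apply sum_congr rfl
    intro e _
    ring
  rw [h1, ← sum_sub_distrib]
  have h2 : ∀ q ∈ Ioc K M, ∑ e ∈ D210 with e ∣ q, (mu e : ℝ) * (if Int.fract (q * c / e) < d / e then 1 else 0) -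
      ∑ e ∈ D210 with e ∣ q, (mu e : ℝ) * (d / e) = ∑ e ∈ D210, if e ∣ q then (mu e : ℝ) * hh (d / e) (q * c / e) else 0 := by
    intro q _
    rw [← sum_sub_distrib, ← sum_filter]
    apply sum_congr rfl
    intro e _
    unfold hh
    ring
  rw [sum_congr rfl h2, sum_comm]
  apply sum_congr rfl
  intro e he
  have he1 := D210_pos he
  have he0 : (e : ℝ) ≠ 0 := by exact_mod_cast (by omega : e ≠ 0)
  rw [← sum_filter, sum_reindex K M e he1 (fun q : ℕ => (mu e : ℝ) * hh (d / e) (q * c / e)), mul_sum]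
  apply sum_congr rfl
  intro r _
  congr 2
  push_cast
  field_simp

lemma FF_meas (d : ℝ) (q : ℕ) : Measurable (FF d q) := by
  unfold FF
  refine Measurable.ite ?_ measurable_const measurable_const
  refine MeasurableSet.inter (measurableSet_lt measurable_fract measurable_const) ?_
  exact Int.measurable_floor (MeasurableSet.of_discrete (s := {n : ℤ | Int.gcd (Int.gcd n q) 210 = 1}))

lemma FF_le_one (d : ℝ) (q : ℕ) (t : ℝ) : FF d q t ≤ 1 := by unfold FF; split_ifs <;> norm_num

lemma NN_meas (d : ℝ) (K M : ℕ) : Measurable (NN d K M) := by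
  unfold NN
  exact Finset.measurable_sum _ fun q _ => (FF_meas d q).comp (measurable_const.mul measurable_id)

lemma NN_nonneg (d : ℝ) (K M : ℕ) (c : ℝ) : 0 ≤ NN d K M c := sum_nonneg fun _ _ => FF_nonneg _ _ _

lemma NN_le (d : ℝ) (K M : ℕ) (c : ℝ) : NN d K M c ≤ M := by
  unfold NN
  refine (sum_le_sum fun q _ => FF_le_one d q _).trans ?_
  rw [sum_const, nsmul_eq_mul, mul_one, Nat.card_Ioc]
  exact_mod_cast Nat.sub_le _ _

lemma EN_nonneg {d : ℝ} (hd : 0 ≤ d) (K M : ℕ) : 0 ≤ EN d K M := by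
  unfold EN
  refine mul_nonneg hd (sum_nonneg fun q hq => wt_nonneg q ?_)
  have := (mem_Ioc.1 hq).1
  omega

lemma EN_le {d : ℝ} (hd : 0 ≤ d) (K M : ℕ) : EN d K M ≤ d * Wt M := by
  unfold EN Wt
  refine mul_le_mul_of_nonneg_left ?_ hd
  apply sum_le_sum_of_subset_of_nonneg
  · intro q hq
    rw [mem_Ioc] at hq
    exact mem_Icc.2 ⟨by omega, hq.2⟩
  · intro q hq _
    exact wt_nonneg q (mem_Icc.1 hq).1

lemma f00_meas (d : ℝ) (K M : ℕ) : Measurable (f00 d K M) := (NN_meas d K M).sub_const _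

lemma abs_f00_le {d : ℝ} (hd : 0 ≤ d) (K M : ℕ) (c : ℝ) : |f00 d K M c| ≤ M + EN d K M := by
  unfold f00
  rw [abs_le]
  constructor <;> linarith [NN_nonneg d K M c, NN_le d K M c, EN_nonneg hd K M, (Nat.cast_nonneg M : (0:ℝ) ≤ M)]

lemma Re_sub {K1 M e : ℕ} (he : e ∈ D210) : Re (210 * K1) M e ⊆ Ioc K1 M := by
  intro r hr
  unfold Re at hr
  rw [mem_filter, mem_Icc] at hr
  have he2 : e ≤ 210 := Nat.le_of_dvd (by norm_num) (mem_D210.1 he)
  rw [mem_Ioc]
  refine ⟨?_, hr.1.2⟩
  have : 210 * K1 < 210 * r := lt_of_lt_of_le hr.2.1 (Nat.mul_le_mul_right r he2)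
  omega

lemma card_D210 : #D210 = 16 := by decide

lemma div_bounds {d : ℝ} (hd0 : 0 < d) {e : ℕ} (he : e ∈ D210) : 0 < d / e ∧ d / e ≤ d := by
  have he1 := D210_pos he
  have he0 : (1 : ℝ) ≤ e := by exact_mod_cast he1
  exact ⟨by positivity, div_le_self hd0.le he0⟩

lemma Psi_integral {d : ℝ} (hd0 : 0 < d) (hd : d ≤ 1) (K1 M : ℕ) (x y : ℝ) :
    ∫ t in x..y, f00 d (210 * K1) M t = Psi d (210 * K1) M y - Psi d (210 * K1) M x := by
  simp_rw [f00_eq hd]
  rw [intervalIntegral.integral_finsetSum]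
  · unfold Psi
    rw [← sum_sub_distrib]
    apply sum_congr rfl
    intro e he
    obtain ⟨h1, h2⟩ := div_bounds hd0 he
    rw [intervalIntegral.integral_const_mul, integral_SS_diff h1.le (h2.trans hd) K1 M _ (Re_sub he), mul_sub]
  · intro e he
    obtain ⟨h1, h2⟩ := div_bounds hd0 he
    refine intIntegrable_of_bdd ?_ (#(Re (210 * K1) M e)) ?_ _ _
    · exact measurable_const.mul (Finset.measurable_sum _ fun r _ => (hh_measurable _).comp (measurable_const.mul measurable_id))
    · intro t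
      rw [abs_mul, abs_mu, one_mul]
      refine (abs_sum_le_sum_abs _ _).trans ?_
      refine (sum_le_sum fun r _ => abs_hh_le h1.le (h2.trans hd) _).trans ?_
      simp

lemma Psi_continuous (d : ℝ) (K M : ℕ) : Continuous (Psi d K M) := by
  unfold Psi
  exact continuous_finsetSum _ fun e _ => continuous_const.mul (SS_continuous _ _)

lemma Psi_periodic (d : ℝ) (K M : ℕ) : Function.Periodic (Psi d K M) 1 := by
  intro x
  unfold Psi
  exact sum_congr rfl fun e _ => by rw [SS_periodic _ _ x]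

lemma abs_Psi_le {d : ℝ} (hd0 : 0 < d) (K1 M : ℕ) (x : ℝ) :
    |Psi d (210 * K1) M x| ≤ 16 * (d * Real.sqrt M) := by
  unfold Psi
  refine (abs_sum_le_sum_abs _ _).trans ?_
  have h1 : ∀ e ∈ D210, |(mu e : ℝ) * SS (Re (210 * K1) M e) (d / e) x| ≤ d * Real.sqrt M := by
    intro e he
    obtain ⟨h1, h2⟩ := div_bounds hd0 he
    rw [abs_mul, abs_mu, one_mul]
    exact (abs_SS_le h1.le K1 M _ (Re_sub he) x).trans (mul_le_mul_of_nonneg_right h2 (Real.sqrt_nonneg _))
  refine (sum_le_sum h1).trans ?_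
  rw [sum_const, card_D210, nsmul_eq_mul]
  norm_num

lemma integral_abs_Psi {d : ℝ} (hd0 : 0 < d) (K1 M : ℕ) (hK1 : 1 ≤ K1) :
    ∫ x, |Psi d (210 * K1) M x| ∂lam ≤ 16 * (Real.sqrt (3 / K1) * d) := by
  rw [integral_lam]
  have hc : ∀ e, Continuous (fun x => |(mu e : ℝ) * SS (Re (210 * K1) M e) (d / e) x|) := fun e =>
    (continuous_const.mul (SS_continuous _ _)).abs
  calc ∫ x in (0:ℝ)..1, |Psi d (210 * K1) M x|
      ≤ ∫ x in (0:ℝ)..1, ∑ e ∈ D210, |(mu e : ℝ) * SS (Re (210 * K1) M e) (d / e) x| := by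
        apply intervalIntegral.integral_mono (by norm_num)
        · exact (Psi_continuous d (210 * K1) M).abs.intervalIntegrable _ _
        · exact (continuous_finsetSum _ fun e _ => hc e).intervalIntegrable _ _
        · intro x
          exact abs_sum_le_sum_abs _ _
    _ = ∑ e ∈ D210, ∫ x in (0:ℝ)..1, |(mu e : ℝ) * SS (Re (210 * K1) M e) (d / e) x| :=
        intervalIntegral.integral_finsetSum fun e _ => (hc e).intervalIntegrable _ _
    _ ≤ ∑ e ∈ D210, Real.sqrt (3 / K1) * d := by
        apply sum_le_sum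
        intro e he
        obtain ⟨h1, h2⟩ := div_bounds hd0 he
        simp_rw [abs_mul, abs_mu, one_mul]
        exact (integral_abs_SS h1 K1 M hK1 _ (Re_sub he)).trans
          (mul_le_mul_of_nonneg_left h2 (Real.sqrt_nonneg _))
    _ = 16 * (Real.sqrt (3 / K1) * d) := by rw [sum_const, card_D210, nsmul_eq_mul]; norm_num

section expectation

variable {Ψ : ℝ → ℝ} {d s : ℝ}

lemma integral_TT1 (hc : Continuous Ψ) (hs : ∀ x, |Ψ x| ≤ s) (hd0 : 0 < d) (hd : d ≤ 1) :
    ∫ x, |Ψ (TT d x)| ∂lam ≤ ∫ x, |Ψ x| ∂lam + d * s := by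
  have h1 : ∫ x, (|Ψ x| + s * (if x < d then (1:ℝ) else 0)) ∂lam = ∫ x, |Ψ x| ∂lam + d * s := by
    rw [integral_add, integral_const_mul, integral_ind_lt hd0.le hd, mul_comm s d]
    · exact integrable_lam hc.abs.measurable s (fun x => by rw [abs_abs]; exact hs x)
    · exact (integrable_lam (ind_measurable d) 1 (ind_abs_le d)).const_mul _
  rw [← h1]
  refine integral_mono_ae ?_ ?_ ?_
  · exact integrable_lam (hc.comp (TT_continuous d)).abs.measurable s (fun x => by rw [abs_abs]; exact hs _)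
  · exact (integrable_lam hc.abs.measurable s (fun x => by rw [abs_abs]; exact hs x)).add
      ((integrable_lam (ind_measurable d) 1 (ind_abs_le d)).const_mul _)
  · filter_upwards [ae_lam] with x hx
    by_cases h : x < d
    · rw [if_pos h, mul_one]
      linarith [hs (TT d x), abs_nonneg (Ψ x)]
    · rw [if_neg h, mul_zero, add_zero]
      push Not at h
      have : TT d x = x := by unfold TT; rw [min_eq_left hx.2.le, max_eq_right h]
      rw [this]

lemma integral_TT2 (hc : Continuous Ψ) (hp : Function.Periodic Ψ 1) (hs : ∀ x, |Ψ x| ≤ s) (hd0 : 0 < d) (hd : d ≤ 1) :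
    ∫ x, |Ψ (TT d (x + d))| ∂lam ≤ ∫ x, |Ψ x| ∂lam + d * s := by
  have hpa : Function.Periodic (fun x => |Ψ x|) 1 := by intro x; simp only; rw [hp x]
  have h0 : ∫ x, |Ψ (x + d)| ∂lam = ∫ x, |Ψ x| ∂lam := by
    rw [integral_lam, integral_lam]
    exact integral_shift hpa d
  have hcs : Continuous (fun x => |Ψ (x + d)|) := (hc.comp (continuous_id.add continuous_const)).abs
  have h1 : ∫ x, (|Ψ (x + d)| + s * (1 - (if x < 1 - d then (1:ℝ) else 0))) ∂lam = ∫ x, |Ψ x| ∂lam + d * s := by
    rw [integral_add, integral_const_mul, integral_sub (integrable_const _) (integrable_lam (ind_measurable _) 1 (ind_abs_le _)),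
      integral_ind_lt (by linarith) (by linarith), h0]
    · simp only [integral_const, probReal_univ, smul_eq_mul, mul_one]
      ring
    · exact integrable_lam hcs.measurable s (fun x => by rw [abs_abs]; exact hs _)
    · exact ((integrable_const _).sub (integrable_lam (ind_measurable _) 1 (ind_abs_le _))).const_mul _
  rw [← h1]
  refine integral_mono_ae ?_ ?_ ?_
  · exact integrable_lam (hc.comp ((TT_continuous d).comp (continuous_id.add continuous_const))).abs.measurable s
      (fun x => by rw [abs_abs]; exact hs _)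
  · exact (integrable_lam hcs.measurable s (fun x => by rw [abs_abs]; exact hs _)).add
      (((integrable_const _).sub (integrable_lam (ind_measurable _) 1 (ind_abs_le _))).const_mul _)
  · filter_upwards [ae_lam] with x hx
    by_cases h : x < 1 - d
    · rw [if_pos h, sub_self, mul_zero, add_zero]
      have : TT d (x + d) = x + d := by
        unfold TT; rw [min_eq_left (by linarith), max_eq_right (by linarith [hx.1])]
      rw [this]
    · rw [if_neg h, sub_zero, mul_one]
      linarith [hs (TT d (x + d)), abs_nonneg (Ψ (x + d))]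

lemma BB_measurable (hc : Continuous Ψ) (M : ℕ) : Measurable (BB Ψ d M) := by
  unfold BB
  refine Measurable.add_const ?_ _
  refine Finset.measurable_sum _ fun j _ => ?_
  have hm : Measurable (fun a : ℝ => Int.fract (0 - j * a)) :=
    measurable_fract.comp (measurable_const.sub (measurable_const.mul measurable_id))
  refine Measurable.add ?_ ?_
  · exact measurable_const.mul (((hc.comp (TT_continuous d)).abs.measurable).comp hm)
  · exact ((hc.comp ((TT_continuous d).comp (continuous_id.add continuous_const))).abs.measurable).comp hm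

lemma BB_nonneg (M : ℕ) (a : ℝ) : 0 ≤ BB Ψ d M a := by
  unfold BB
  refine add_nonneg (sum_nonneg fun j _ => by positivity) (abs_nonneg _)

lemma BB_le (hs : ∀ x, |Ψ x| ≤ s) (M : ℕ) (a : ℝ) : BB Ψ d M a ≤ M * (3 * s) + s := by
  unfold BB
  refine add_le_add ?_ (hs _)
  refine (sum_le_sum (g := fun _ => 3 * s) fun j _ => ?_).trans ?_
  · linarith [hs (TT d (Int.fract (0 - (j : ℝ) * a))), hs (TT d (Int.fract (0 - (j : ℝ) * a) + d))]
  · rw [sum_const, card_range, nsmul_eq_mul]

lemma BB_integrable (hc : Continuous Ψ) (hs : ∀ x, |Ψ x| ≤ s) (M : ℕ) : Integrable (BB Ψ d M) lam :=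
  integrable_lam (BB_measurable hc M) (M * (3 * s) + s) fun a => by
    rw [abs_of_nonneg (BB_nonneg M a)]; exact BB_le hs M a

lemma integral_BB (hc : Continuous Ψ) (hp : Function.Periodic Ψ 1) (hs : ∀ x, |Ψ x| ≤ s) (hd0 : 0 < d) (hd : d ≤ 1) (M : ℕ) :
    ∫ a, BB Ψ d M a ∂lam ≤ 4 * s + M * (3 * (∫ x, |Ψ x| ∂lam + d * s)) := by
  have hs0 : 0 ≤ s := (abs_nonneg _).trans (hs 0)
  have hL : 0 ≤ ∫ x, |Ψ x| ∂lam := integral_nonneg fun _ => abs_nonneg _
  have hterm : ∀ j : ℕ, Integrable (fun a => 2 * |Ψ (TT d (Int.fract (0 - j * a)))| + |Ψ (TT d (Int.fract (0 - j * a) + d))|) lam := by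
    intro j
    have hm : Measurable (fun a : ℝ => Int.fract (0 - j * a)) :=
      measurable_fract.comp (measurable_const.sub (measurable_const.mul measurable_id))
    refine integrable_lam ?_ (3 * s) ?_
    · refine Measurable.add ?_ ?_
      · exact measurable_const.mul (((hc.comp (TT_continuous d)).abs.measurable).comp hm)
      · exact ((hc.comp ((TT_continuous d).comp (continuous_id.add continuous_const))).abs.measurable).comp hm
    · intro a
      rw [abs_of_nonneg (by positivity)]
      linarith [hs (TT d (Int.fract (0 - (j : ℝ) * a))), hs (TT d (Int.fract (0 - (j : ℝ) * a) + d))]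
  unfold BB
  rw [integral_add (integrable_finsetSum _ fun j _ => hterm j) (integrable_const _), integral_finsetSum _ (fun j _ => hterm j)]
  have h1 : ∀ j : ℕ, 1 ≤ j → ∫ a, (2 * |Ψ (TT d (Int.fract (0 - j * a)))| + |Ψ (TT d (Int.fract (0 - j * a) + d))|) ∂lam ≤
      3 * (∫ x, |Ψ x| ∂lam + d * s) := by
    intro j hj
    have hg : Measurable (fun x => 2 * |Ψ (TT d x)| + |Ψ (TT d (x + d))|) := by
      refine Measurable.add ?_ ?_
      · exact measurable_const.mul (hc.comp (TT_continuous d)).abs.measurable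
      · exact (hc.comp ((TT_continuous d).comp (continuous_id.add continuous_const))).abs.measurable
    have h2 := equi_neg hg (3 * s) (fun x => by
      rw [abs_of_nonneg (by positivity)]
      linarith [hs (TT d x), hs (TT d (x + d))]) 0 j hj
    rw [h2, integral_add, integral_const_mul]
    · linarith [integral_TT1 hc hs hd0 hd, integral_TT2 hc hp hs hd0 hd]
    · exact (integrable_lam (hc.comp (TT_continuous d)).abs.measurable s (fun x => by rw [abs_abs]; exact hs _)).const_mul _
    · exact integrable_lam (hc.comp ((TT_continuous d).comp (continuous_id.add continuous_const))).abs.measurable s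
        (fun x => by rw [abs_abs]; exact hs _)
  have h3 : ∀ j : ℕ, ∫ a, (2 * |Ψ (TT d (Int.fract (0 - j * a)))| + |Ψ (TT d (Int.fract (0 - j * a) + d))|) ∂lam ≤
      3 * (∫ x, |Ψ x| ∂lam + d * s) + (if j = 0 then 3 * s else 0) := by
    intro j
    rcases Nat.eq_zero_or_pos j with h | h
    · subst h
      rw [if_pos rfl]
      have : ∫ a, (2 * |Ψ (TT d (Int.fract (0 - ((0:ℕ):ℝ) * a)))| + |Ψ (TT d (Int.fract (0 - ((0:ℕ):ℝ) * a) + d))|) ∂lam ≤
          ∫ a, (3 * s : ℝ) ∂lam := by
        refine integral_mono (hterm 0) (integrable_const _) fun a => ?_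
        simp only
        linarith [hs (TT d (Int.fract (0 - ((0:ℕ) : ℝ) * a))), hs (TT d (Int.fract (0 - ((0:ℕ) : ℝ) * a) + d))]
      simp only [integral_const, probReal_univ, smul_eq_mul, one_mul] at this
      have h4 : 0 ≤ 3 * (∫ x, |Ψ x| ∂lam + d * s) := by positivity
      linarith
    · rw [if_neg (by omega), add_zero]; exact h1 j h
  have h4 : ∑ j ∈ range M, ∫ a, (2 * |Ψ (TT d (Int.fract (0 - j * a)))| + |Ψ (TT d (Int.fract (0 - j * a) + d))|) ∂lam ≤
      M * (3 * (∫ x, |Ψ x| ∂lam + d * s)) + 3 * s := by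
    refine (sum_le_sum fun j _ => h3 j).trans ?_
    rw [sum_add_distrib, sum_const, card_range, nsmul_eq_mul]
    refine add_le_add le_rfl ?_
    rw [sum_ite_eq']
    split_ifs <;> linarith
  simp only [integral_const, probReal_univ, smul_eq_mul, one_mul]
  linarith [hs (TT d 3)]

end expectation

/-- some `1 ≤ k ≤ M` has `fract (k c) < d` -/
def Tau (d : ℝ) (M : ℕ) (_a c : ℝ) : Prop := ∃ k : ℕ, 1 ≤ k ∧ k ≤ M ∧ Int.fract (k * c) < d

lemma meas_Tau (d : ℝ) (M : ℕ) : MeasurableSet {x : ℝ × ℝ | Tau d M x.1 x.2} := by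
  have : {x : ℝ × ℝ | Tau d M x.1 x.2} = ⋃ k ∈ Finset.Icc 1 M, {x : ℝ × ℝ | Int.fract ((k : ℝ) * x.2) < d} := by
    ext x
    simp [Tau, and_assoc]
  rw [this]
  exact Finset.measurableSet_biUnion _ fun k _ => meas_fract_lt d (measurable_const.mul measurable_snd)

lemma ind_integrable_c {p : ℝ → ℝ → Prop} (hp : MeasurableSet {x : ℝ × ℝ | p x.1 x.2}) (a : ℝ) :
    Integrable (fun c => ind p a c) lam :=
  integrable_lam ((ind_measurable2 hp).comp (measurable_const.prodMk measurable_id)) 1 (fun c => abs_ind_le _ _ _)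

lemma integral_Tau_le {d : ℝ} (hd0 : 0 < d) (hd : d ≤ 1) (K : ℕ) (a : ℝ) :
    ∫ c, ind (Tau d K) a c ∂lam ≤ K * d := by
  have hm : ∀ k : ℕ, Integrable (fun c : ℝ => if Int.fract (0 + k * c) < d then (1:ℝ) else 0) lam := by
    intro k
    refine integrable_lam ?_ 1 (fun c => by split_ifs <;> simp)
    refine Measurable.ite (measurableSet_lt (measurable_fract.comp ?_) measurable_const) measurable_const measurable_const
    exact measurable_const.add (measurable_const.mul measurable_id)
  calc ∫ c, ind (Tau d K) a c ∂lam ≤ ∫ c, ∑ k ∈ Icc 1 K, (if Int.fract (0 + k * c) < d then (1:ℝ) else 0) ∂lam := by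
        refine integral_mono (ind_integrable_c (meas_Tau d K) a) (integrable_finsetSum _ fun k _ => hm k) fun _ => ?_
        rename_i c
        by_cases h : Tau d K a c
        · have h1 : ind (Tau d K) a c = 1 := by unfold ind; rw [if_pos h]
          obtain ⟨k, hk1, hk2, hk3⟩ := h
          have h2 : (if Int.fract (0 + (k : ℝ) * c) < d then (1:ℝ) else 0) = 1 := by rw [zero_add, if_pos hk3]
          simp only
          rw [h1]
          refine h2.ge.trans ?_
          exact single_le_sum (f := fun k : ℕ => if Int.fract (0 + (k : ℝ) * c) < d then (1:ℝ) else 0)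
            (fun i _ => by split_ifs <;> norm_num) (mem_Icc.2 ⟨hk1, hk2⟩)
        · have h1 : ind (Tau d K) a c = 0 := by unfold ind; rw [if_neg h]
          simp only
          rw [h1]
          exact sum_nonneg fun i _ => by split_ifs <;> norm_num
    _ = ∑ k ∈ Icc 1 K, d := by
        rw [integral_finsetSum _ fun k _ => hm k]
        apply sum_congr rfl
        intro k hk
        have := equi_pos (ind_measurable d) 1 (ind_abs_le d) 0 k (mem_Icc.1 hk).1
        rw [this, integral_ind_lt hd0.le hd]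
    _ = K * d := by rw [sum_const, Nat.card_Icc, nsmul_eq_mul]; simp

lemma Cov_mono {d : ℝ} {M' M : ℕ} (h : M' ≤ M) {a c : ℝ} (hc : Cov d M' a c) : Cov d M a c := by
  obtain ⟨j, hj, h1⟩ := hc
  exact ⟨j, by omega, h1⟩

/-- the integral of the centred counting function over a window -/
lemma win_osc {d : ℝ} (hd0 : 0 < d) (hd : d ≤ 1) (K1 M' M : ℕ) (h : M' ≤ M) (a : ℝ) :
    ∫ c in {c | Win d M' M a c} ∩ Set.Ico d 1, f00 d (210 * K1) M c ≤
      BB (Psi d (210 * K1) M) d M a + BB (Psi d (210 * K1) M) d M' a := by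
  have hb := fun M0 => osc_bound (f00_meas d (210 * K1) M) _ (abs_f00_le hd0.le (210 * K1) M)
    (Psi_integral hd0 hd K1 M) hd0 hd M0 a
  have hset : {c | Win d M' M a c} ∩ Set.Ico d 1 = ({c | Cov d M a c} ∩ Set.Ico d 1) \ ({c | Cov d M' a c} ∩ Set.Ico d 1) := by
    ext c
    simp only [Set.mem_inter_iff, Set.mem_ofPred_eq, Set.mem_sdiff, Win]
    tauto
  have hsec : ∀ M0, MeasurableSet {c | Cov d M0 a c} := fun M0 =>
    (meas_Cov d M0).preimage (measurable_const.prodMk measurable_id : Measurable (fun c : ℝ => (a, c)))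
  have hint : IntegrableOn (f00 d (210 * K1) M) ({c | Cov d M a c} ∩ Set.Ico d 1) := by
    refine Measure.integrableOn_of_bounded (M := M + EN d (210 * K1) M) ?_ (f00_meas _ _ _).aestronglyMeasurable ?_
    · refine ne_top_of_le_ne_top ?_ (measure_mono Set.inter_subset_right)
      rw [Real.volume_Ico]; exact ENNReal.ofReal_ne_top
    · exact Filter.Eventually.of_forall fun x => by rw [Real.norm_eq_abs]; exact abs_f00_le hd0.le _ _ _
  rw [hset, setIntegral_sdiff ((hsec M').inter measurableSet_Ico) hint]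
  · have h1 := abs_le.1 (hb M)
    have h2 := abs_le.1 (hb M')
    linarith [h1.2, h2.1]
  · exact Set.inter_subset_inter_left _ fun c hc => Cov_mono h hc

/-- sectionwise decorrelation -/
lemma section_ineq {d : ℝ} (hd0 : 0 < d) (hd : d ≤ 1) (K1 M' M : ℕ) (h : M' ≤ M) (a : ℝ) :
    ∫ c, ind (fun a c => Win d M' M a c ∧ Tau d M a c) a c ∂lam ≤
      d + (210 * K1 : ℕ) * d + d * Wt M * ∫ c, ind (Win d M' M) a c ∂lam +
      (BB (Psi d (210 * K1) M) d M a + BB (Psi d (210 * K1) M) d M' a) := by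
  classical
  set K := 210 * K1 with hK
  have hEN := EN_nonneg hd0.le K M
  have hENle := EN_le hd0.le K M
  have hWT : MeasurableSet {x : ℝ × ℝ | Win d M' M x.1 x.2 ∧ Tau d M x.1 x.2} := (meas_Win d M' M).inter (meas_Tau d M)
  set S : Set ℝ := {c | Win d M' M a c} ∩ Set.Ico d 1 with hS
  have hSm : MeasurableSet S := ((meas_Win d M' M).preimage
    (measurable_const.prodMk measurable_id : Measurable (fun c : ℝ => (a, c)))).inter measurableSet_Ico
  -- pointwise bound
  have hpt : ∀ᵐ c ∂lam, ind (fun a c => Win d M' M a c ∧ Tau d M a c) a c ≤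
      (if c < d then (1:ℝ) else 0) + ind (Tau d K) a c + (EN d K M * ind (Win d M' M) a c + S.indicator (f00 d K M) c) := by
    filter_upwards [ae_lam] with c hc
    by_cases hcd : c < d
    · have h1 : c ∉ S := fun hcs => absurd hcd (not_lt.2 hcs.2.1)
      rw [if_pos hcd, Set.indicator_of_notMem h1]
      have := ind_le_one (fun a c => Win d M' M a c ∧ Tau d M a c) a c
      have h2 := ind_nonneg (Tau d K) a c
      have h3 := mul_nonneg hEN (ind_nonneg (Win d M' M) a c)
      linarith
    · rw [if_neg hcd]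
      by_cases hW : Win d M' M a c
      · have h1 : c ∈ S := ⟨hW, not_lt.1 hcd, hc.2⟩
        have h2 : ind (Win d M' M) a c = 1 := by unfold ind; rw [if_pos hW]
        rw [Set.indicator_of_mem h1, h2, mul_one]
        unfold f00
        have h3 := NN_nonneg d K M c
        by_cases hT : Tau d M a c
        · have h4 := ind_le_one (fun a c => Win d M' M a c ∧ Tau d M a c) a c
          rcases sieve_B hd K M hT with h5 | h5
          · have h6 : ind (Tau d K) a c = 1 := by unfold ind; rw [if_pos]; exact h5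
            linarith
          · have h6 : 1 ≤ NN d K M c := h5
            have h7 := ind_nonneg (Tau d K) a c
            linarith
        · have h4 : ind (fun a c => Win d M' M a c ∧ Tau d M a c) a c = 0 := by
            unfold ind; rw [if_neg]; exact fun h => hT h.2
          have h7 := ind_nonneg (Tau d K) a c
          linarith
      · have h1 : c ∉ S := fun hcs => hW hcs.1
        have h4 : ind (fun a c => Win d M' M a c ∧ Tau d M a c) a c = 0 := by
          unfold ind; rw [if_neg]; exact fun h => hW h.1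
        rw [Set.indicator_of_notMem h1, h4]
        have h7 := ind_nonneg (Tau d K) a c
        have h3 := mul_nonneg hEN (ind_nonneg (Win d M' M) a c)
        linarith
  have i1 : Integrable (fun c : ℝ => if c < d then (1:ℝ) else 0) lam := integrable_lam (ind_measurable d) 1 (ind_abs_le d)
  have i2 : Integrable (fun c => ind (Tau d K) a c) lam := ind_integrable_c (meas_Tau d K) a
  have i3 : Integrable (fun c => EN d K M * ind (Win d M' M) a c) lam := (ind_integrable_c (meas_Win d M' M) a).const_mul _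
  have i4 : Integrable (S.indicator (f00 d K M)) lam :=
    (integrable_lam (f00_meas d K M) _ (abs_f00_le hd0.le K M)).indicator hSm
  have h1 := integral_mono_ae (ind_integrable_c hWT a) ((i1.add i2).add (i3.add i4)) hpt
  refine h1.trans ?_
  have e1 : ∫ c, ((fun c : ℝ => if c < d then (1:ℝ) else 0) + (fun c => ind (Tau d K) a c) +
      ((fun c => EN d K M * ind (Win d M' M) a c) + S.indicator (f00 d K M))) c ∂lam =
      (∫ c, (if c < d then (1:ℝ) else 0) ∂lam + ∫ c, ind (Tau d K) a c ∂lam) +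
      (∫ c, EN d K M * ind (Win d M' M) a c ∂lam + ∫ c, S.indicator (f00 d K M) c ∂lam) := by
    rw [integral_add' (i1.add i2) (i3.add i4), integral_add' i1 i2, integral_add' i3 i4]
  rw [e1, integral_ind_lt hd0.le hd, integral_const_mul]
  have h2 := integral_Tau_le hd0 hd K a
  have h3 : EN d K M * ∫ c, ind (Win d M' M) a c ∂lam ≤ d * Wt M * ∫ c, ind (Win d M' M) a c ∂lam :=
    mul_le_mul_of_nonneg_right hENle (integral_nonneg fun _ => ind_nonneg _ _ _)
  have h4 : ∫ c, S.indicator (f00 d K M) c ∂lam = ∫ c in S, f00 d K M c := by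
    rw [integral_indicator hSm]
    unfold lam
    rw [Measure.restrict_restrict hSm]
    congr 2
    ext c
    simp only [hS, Set.mem_inter_iff, Set.mem_Ico]
    constructor
    · rintro ⟨h, _⟩; exact h
    · rintro ⟨h1, h2, h3⟩; exact ⟨⟨h1, h2, h3⟩, by linarith, h3⟩
  have h5 := win_osc hd0 hd K1 M' M h a
  rw [h4]
  linarith

/-- Lemma B -/
lemma lemmaB {d : ℝ} (hd0 : 0 < d) (hd : d ≤ 1) (K1 M' M : ℕ) (hK1 : 1 ≤ K1) (h : M' ≤ M) (hMd : M * d ≤ 1) :
    ∫ a, ∫ c, ind (fun a c => Win d M' M a c ∧ Tau d M a c) a c ∂lam ∂lam ≤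
      d * Wt M * ∫ a, ∫ c, ind (Win d M' M) a c ∂lam ∂lam +
      (d + (210 * K1 : ℕ) * d + (96 * Real.sqrt (3 / K1) + 224 * Real.sqrt d)) := by
  have hWT : MeasurableSet {x : ℝ × ℝ | Win d M' M x.1 x.2 ∧ Tau d M x.1 x.2} := (meas_Win d M' M).inter (meas_Tau d M)
  set Ψ := Psi d (210 * K1) M with hΨ
  have hsq : d * Real.sqrt M ≤ Real.sqrt d := by
    have e1 : d = Real.sqrt d * Real.sqrt d := (Real.mul_self_sqrt hd0.le).symm
    have e2 : Real.sqrt d * Real.sqrt M ≤ 1 := by
      rw [← Real.sqrt_mul hd0.le, Real.sqrt_le_one]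
      linarith
    have e3 := Real.sqrt_nonneg d
    calc d * Real.sqrt M = Real.sqrt d * (Real.sqrt d * Real.sqrt M) := by rw [← mul_assoc, ← e1]
      _ ≤ Real.sqrt d * 1 := mul_le_mul_of_nonneg_left e2 e3
      _ = Real.sqrt d := mul_one _
  have hs : ∀ x, |Ψ x| ≤ 16 * Real.sqrt d := fun x => (abs_Psi_le hd0 K1 M x).trans (by linarith)
  have hc : Continuous Ψ := Psi_continuous _ _ _
  have hp : Function.Periodic Ψ 1 := Psi_periodic _ _ _
  have hL := integral_abs_Psi hd0 K1 M hK1
  have hL0 : 0 ≤ ∫ x, |Ψ x| ∂lam := integral_nonneg fun _ => abs_nonneg _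
  have hB : ∀ M0 : ℕ, M0 ≤ M → ∫ a, BB Ψ d M0 a ∂lam ≤ 48 * Real.sqrt (3 / K1) + 112 * Real.sqrt d := by
    intro M0 hM0
    refine (integral_BB hc hp hs hd0 hd M0).trans ?_
    have hM0' : (M0 : ℝ) ≤ M := by exact_mod_cast hM0
    have e0 : 0 ≤ Real.sqrt d := Real.sqrt_nonneg d
    have e1 : (M0 : ℝ) * (3 * (∫ x, |Ψ x| ∂lam + d * (16 * Real.sqrt d))) ≤
        M * (3 * (16 * (Real.sqrt (3 / K1) * d) + d * (16 * Real.sqrt d))) := by
      apply mul_le_mul hM0' _ (by positivity) (by positivity)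
      linarith
    have e2 : (M : ℝ) * (3 * (16 * (Real.sqrt (3 / K1) * d) + d * (16 * Real.sqrt d))) =
        (M * d) * (48 * Real.sqrt (3 / K1) + 48 * Real.sqrt d) := by ring
    have e3 : (M * d) * (48 * Real.sqrt (3 / K1) + 48 * Real.sqrt d) ≤ 1 * (48 * Real.sqrt (3 / K1) + 48 * Real.sqrt d) :=
      mul_le_mul_of_nonneg_right hMd (by positivity)
    linarith
  have hBi : ∀ M0, Integrable (BB Ψ d M0) lam := fun M0 => BB_integrable hc hs M0
  have hWi : Integrable (fun a => ∫ c, ind (Win d M' M) a c ∂lam) lam :=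
    integrable_inner (f := fun x => ind (Win d M' M) x.1 x.2) (ind_measurable2 (meas_Win d M' M)) 1 (fun x => abs_ind_le _ _ _)
  have hWTi : Integrable (fun a => ∫ c, ind (fun a c => Win d M' M a c ∧ Tau d M a c) a c ∂lam) lam :=
    integrable_inner (f := fun x => ind (fun a c => Win d M' M a c ∧ Tau d M a c) x.1 x.2) (ind_measurable2 hWT) 1
      (fun x => abs_ind_le _ _ _)
  have h1 := integral_mono hWTi (((integrable_const (d + (210 * K1 : ℕ) * d)).add (hWi.const_mul (d * Wt M))).add
    ((hBi M).add (hBi M'))) (fun a => section_ineq hd0 hd K1 M' M h a)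
  refine h1.trans ?_
  rw [integral_add' ((integrable_const _).add (hWi.const_mul _)) ((hBi M).add (hBi M')),
    integral_add' (integrable_const _) (hWi.const_mul _), integral_add' (hBi M) (hBi M'), integral_const_mul]
  simp only [integral_const, probReal_univ, smul_eq_mul, one_mul]
  have h2 := hB M le_rfl
  have h3 := hB M' h
  linarith

end Pool.Agent.R361.FA
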