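import Mathlib
import Pool.Agent.R361.FA.LemB

/-!
# First approach times: the lower bound
-/

set_option autoImplicit false

namespace Pool.Agent.R361.FA

open Finset MeasureTheory

/-- the first orbit wins -/
def Goal (d : ℝ) (a c : ℝ) : Prop :=
  ∃ j : ℕ, Int.fract (c + j * a) < d ∧ ∀ m : ℕ, 1 ≤ m → m ≤ j + 1 → d ≤ Int.fract (m * c)

lemma meas_Goal (d : ℝ) : MeasurableSet {x : ℝ × ℝ | Goal d x.1 x.2} := by
  have : {x : ℝ × ℝ | Goal d x.1 x.2} = ⋃ j : ℕ, ({x : ℝ × ℝ | Int.fract (x.2 + j * x.1) < d} ∩ {x : ℝ × ℝ | Tau d (j + 1) x.1 x.2}ᶜ) := by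
    ext x
    simp [Goal, Tau]
  rw [this]
  exact MeasurableSet.iUnion fun j => (meas_fract_lt d (meas_lin j)).inter (meas_Tau d _).compl

/-- the subdivision -/
noncomputable def Mr (d : ℝ) (r : ℕ) : ℕ := ⌊(r : ℝ) / (200 * d)⌋₊

lemma Mr_mono {d : ℝ} (hd : 0 < d) {r s : ℕ} (h : r ≤ s) : Mr d r ≤ Mr d s := by
  unfold Mr
  apply Nat.floor_le_floor
  have : (r : ℝ) ≤ s := by exact_mod_cast h
  exact div_le_div_of_nonneg_right this (by positivity)

lemma Mr_mul_le {d : ℝ} (hd : 0 < d) (r : ℕ) : Mr d r * d ≤ r / 200 := by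
  have h1 : (Mr d r : ℝ) ≤ (r : ℝ) / (200 * d) := Nat.floor_le (by positivity)
  calc (Mr d r : ℝ) * d ≤ (r : ℝ) / (200 * d) * d := mul_le_mul_of_nonneg_right h1 hd.le
    _ = r / 200 := by field_simp

lemma lt_Mr_mul {d : ℝ} (hd : 0 < d) (r : ℕ) : (r : ℝ) / 200 - d ≤ Mr d r * d := by
  have h1 : (r : ℝ) / (200 * d) < Mr d r + 1 := Nat.lt_floor_add_one _
  have h2 : (r : ℝ) / (200 * d) * d ≤ (Mr d r + 1) * d := mul_le_mul_of_nonneg_right h1.le hd.le
  have h3 : (r : ℝ) / (200 * d) * d = r / 200 := by field_simp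
  linarith

lemma sum_pointwise {d : ℝ} (hd : 0 < d) (R : ℕ) (a c : ℝ) :
    ∑ r ∈ range R, (ind (Win d (Mr d r) (Mr d (r + 1))) a c -
      ind (fun a c => Win d (Mr d r) (Mr d (r + 1)) a c ∧ Tau d (Mr d (r + 1)) a c) a c) ≤ ind (Goal d) a c := by
  classical
  have h0 : ∀ r, ind (Win d (Mr d r) (Mr d (r + 1))) a c -
      ind (fun a c => Win d (Mr d r) (Mr d (r + 1)) a c ∧ Tau d (Mr d (r + 1)) a c) a c =
      if (Win d (Mr d r) (Mr d (r + 1)) a c ∧ ¬ Tau d (Mr d (r + 1)) a c) then 1 else 0 := by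
    intro r
    unfold ind
    by_cases h1 : Win d (Mr d r) (Mr d (r + 1)) a c <;> by_cases h2 : Tau d (Mr d (r + 1)) a c <;> simp [h1, h2]
  simp_rw [h0]
  by_cases h : ∃ r ∈ range R, (Win d (Mr d r) (Mr d (r + 1)) a c ∧ ¬ Tau d (Mr d (r + 1)) a c)
  · obtain ⟨r, hr, hW, hT⟩ := h
    have hG : Goal d a c := by
      obtain ⟨j, hj, hj2⟩ := hW.1
      refine ⟨j, hj2, fun m hm1 hm2 => ?_⟩
      by_contra hlt
      push Not at hlt
      exact hT ⟨m, hm1, by omega, hlt⟩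
    have h1 : ind (Goal d) a c = 1 := by unfold ind; rw [if_pos hG]
    rw [h1, sum_eq_single r]
    · split_ifs <;> norm_num
    · intro s _ hsr
      rw [if_neg]
      rintro ⟨hWs, _⟩
      rcases lt_or_gt_of_ne hsr with h | h
      · exact hW.2 (Cov_mono (Mr_mono hd (by omega)) hWs.1)
      · exact hWs.2 (Cov_mono (Mr_mono hd (by omega)) hW.1)
    · intro h; exact absurd hr h
  · push Not at h
    rw [sum_eq_zero]
    · exact ind_nonneg _ _ _
    · intro r hr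
      rw [if_neg]
      rintro ⟨h1, h2⟩
      exact h2 (h r hr h1)

lemma sum_sq (x : ℝ) (n : ℕ) : ∑ r ∈ range n, (1 - x * ((r + 1 : ℕ) : ℝ)) ^ 2 =
    n - x * n * (n + 1) + x ^ 2 * n * (n + 1) * (2 * n + 1) / 6 := by
  induction n with
  | zero => simp
  | succ k ih => rw [sum_range_succ, ih]; push_cast; ring

theorem core {d : ℝ} (hd0 : 0 < d) (hd : d ≤ 1 / 10 ^ 30) :
    0.501 ≤ ∫ a, ∫ c, ind (Goal d) a c ∂lam ∂lam := by
  have hd1 : d ≤ 1 := hd.trans (by norm_num)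
  have hGi : Integrable (fun x : ℝ × ℝ => ind (Goal d) x.1 x.2) (lam.prod lam) :=
    integrable_prod (ind_measurable2 (meas_Goal d)) 1 (fun x => abs_ind_le _ _ _)
  have hWi : ∀ M' M, Integrable (fun x : ℝ × ℝ => ind (Win d M' M) x.1 x.2) (lam.prod lam) := fun M' M =>
    integrable_prod (ind_measurable2 (meas_Win d M' M)) 1 (fun x => abs_ind_le _ _ _)
  have hWTm : ∀ M' M, MeasurableSet {x : ℝ × ℝ | Win d M' M x.1 x.2 ∧ Tau d M x.1 x.2} := fun M' M =>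
    (meas_Win d M' M).inter (meas_Tau d M)
  have hWTi : ∀ M' M, Integrable (fun x : ℝ × ℝ => ind (fun a c => Win d M' M a c ∧ Tau d M a c) x.1 x.2) (lam.prod lam) := fun M' M =>
    integrable_prod (ind_measurable2 (hWTm M' M)) 1 (fun x => abs_ind_le _ _ _)
  have h1 : ∑ r ∈ range 200, (∫ a, ∫ c, ind (Win d (Mr d r) (Mr d (r + 1))) a c ∂lam ∂lam -
      ∫ a, ∫ c, ind (fun a c => Win d (Mr d r) (Mr d (r + 1)) a c ∧ Tau d (Mr d (r + 1)) a c) a c ∂lam ∂lam) ≤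
      ∫ a, ∫ c, ind (Goal d) a c ∂lam ∂lam := by
    have e1 := integral_mono (integrable_finsetSum (range 200) fun r _ => (hWi (Mr d r) (Mr d (r + 1))).sub (hWTi (Mr d r) (Mr d (r + 1))))
      hGi (fun x => sum_pointwise hd0 200 x.1 x.2)
    rw [integral_finsetSum _ fun r _ => (hWi (Mr d r) (Mr d (r + 1))).sub (hWTi (Mr d r) (Mr d (r + 1))), integral_prod _ hGi] at e1
    refine le_trans (le_of_eq ?_) e1
    apply sum_congr rfl
    intro r _
    rw [integral_sub' (hWi (Mr d r) (Mr d (r + 1))) (hWTi (Mr d r) (Mr d (r + 1))), integral_prod _ (hWi _ _),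
      integral_prod _ (hWTi _ _)]
  refine le_trans ?_ h1
  set c0 : ℝ := 27648 / 44100 with hc0
  have herr1 : Real.sqrt (3 / ((10 ^ 16 : ℕ) : ℝ)) ≤ 1.8 / 10 ^ 8 := by
    rw [Real.sqrt_le_left (by norm_num)]
    norm_num
  have herr2 : Real.sqrt d ≤ 1 / 10 ^ 15 := by
    rw [Real.sqrt_le_left (by norm_num)]
    refine hd.trans (by norm_num)
  have h2 : ∀ r ∈ range 200, (1 - c0 / 200 * ((r + 1 : ℕ) : ℝ)) ^ 2 / 200 - 2 / 10 ^ 6 ≤
      ∫ a, ∫ c, ind (Win d (Mr d r) (Mr d (r + 1))) a c ∂lam ∂lam -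
      ∫ a, ∫ c, ind (fun a c => Win d (Mr d r) (Mr d (r + 1)) a c ∧ Tau d (Mr d (r + 1)) a c) a c ∂lam ∂lam := by
    intro r hr
    have hr200 : ((r + 1 : ℕ) : ℝ) ≤ 200 := by
      have := mem_range.1 hr
      exact_mod_cast (by omega : r + 1 ≤ 200)
    have hle := Mr_mono hd0 (Nat.le_succ r)
    have hMd : Mr d (r + 1) * d ≤ 1 := (Mr_mul_le hd0 (r + 1)).trans (by linarith)
    have hB := lemmaB hd0 hd1 (10 ^ 16) (Mr d r) (Mr d (r + 1)) (by norm_num) hle hMd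
    have hA := Win_lower hd0 hd1 (Mr d r) (Mr d (r + 1)) hle
    set W := ∫ a, ∫ c, ind (Win d (Mr d r) (Mr d (r + 1))) a c ∂lam ∂lam with hW
    set WT := ∫ a, ∫ c, ind (fun a c => Win d (Mr d r) (Mr d (r + 1)) a c ∧ Tau d (Mr d (r + 1)) a c) a c ∂lam ∂lam with hWT
    have herr : d + (210 * 10 ^ 16 : ℕ) * d + (96 * Real.sqrt (3 / ((10 ^ 16 : ℕ) : ℝ)) + 224 * Real.sqrt d) ≤ 1.8 / 10 ^ 6 := by
      have : ((210 * 10 ^ 16 : ℕ) : ℝ) * d ≤ ((210 * 10 ^ 16 : ℕ) : ℝ) * (1 / 10 ^ 30) := mul_le_mul_of_nonneg_left hd (by positivity)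
      norm_num at this herr1 herr2 hd ⊢
      linarith
    have hwt : d * Wt (Mr d (r + 1)) ≤ c0 / 200 * ((r + 1 : ℕ) : ℝ) + 2 * d := by
      have e1 := mul_le_mul_of_nonneg_left (Wt_le (Mr d (r + 1))) hd0.le
      have e2 := Mr_mul_le hd0 (r + 1)
      have e3 : c0 * (Mr d (r + 1) * d) ≤ c0 * (((r + 1 : ℕ) : ℝ) / 200) := mul_le_mul_of_nonneg_left e2 (by rw [hc0]; norm_num)
      have e4 : d * (27648 / 44100 * (Mr d (r + 1) : ℝ) + 2) = c0 * (Mr d (r + 1) * d) + 2 * d := by rw [hc0]; ring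
      have e5 : c0 / 200 * ((r + 1 : ℕ) : ℝ) = c0 * (((r + 1 : ℕ) : ℝ) / 200) := by ring
      linarith
    set A := 1 - c0 / 200 * ((r + 1 : ℕ) : ℝ) with hA'
    set y := 1 - d * Wt (Mr d (r + 1)) with hy
    have hyA : A - 2 * d ≤ y := by linarith
    have hA0 : 0.37 ≤ A := by
      have : c0 / 200 * ((r + 1 : ℕ) : ℝ) ≤ c0 / 200 * 200 := mul_le_mul_of_nonneg_left hr200 (by rw [hc0]; norm_num)
      rw [hA', hc0] at *
      norm_num at this ⊢
      linarith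
    have hA1 : A ≤ 1 := by
      have : 0 ≤ c0 / 200 * ((r + 1 : ℕ) : ℝ) := by rw [hc0]; positivity
      linarith
    have hdsmall : d ≤ 1 / 10 ^ 20 := hd.trans (by norm_num)
    have hy0 : 0 ≤ y := by
      norm_num at hdsmall
      linarith
    have hstep : 1 / 200 - d ≤ ((Mr d (r + 1) : ℝ) - Mr d r) * d := by
      have e1 := lt_Mr_mul hd0 (r + 1)
      have e2 := Mr_mul_le hd0 r
      push_cast at e1
      linarith
    have hW2 : (1 / 200 - d) * y ≤ W := by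
      refine le_trans ?_ hA
      have := mul_le_mul_of_nonneg_right hstep hy0
      linarith
    have hW3 : y * ((1 / 200 - d) * y) ≤ y * W := mul_le_mul_of_nonneg_left hW2 hy0
    have hmain : y * W - 1.8 / 10 ^ 6 ≤ W - WT := by
      have : y * W = W - d * Wt (Mr d (r + 1)) * W := by rw [hy]; ring
      linarith
    refine le_trans ?_ hmain
    have hsq : A ^ 2 - 4 * d ≤ y ^ 2 := by
      have e1 : 0 ≤ A - 2 * d := by norm_num at hdsmall; linarith
      have e2 : (A - 2 * d) ^ 2 ≤ y ^ 2 := pow_le_pow_left₀ e1 hyA 2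
      nlinarith
    have hfac : 0 ≤ 1 / 200 - d := by norm_num at hdsmall ⊢; linarith
    have e3 : (A ^ 2 - 4 * d) * (1 / 200 - d) ≤ y ^ 2 * (1 / 200 - d) := mul_le_mul_of_nonneg_right hsq hfac
    have e4 : A ^ 2 / 200 - 2 * d ≤ (A ^ 2 - 4 * d) * (1 / 200 - d) := by
      have hA2 : A ^ 2 ≤ 1 := by nlinarith
      have e6 : 0 ≤ d * (1 - A ^ 2) := mul_nonneg hd0.le (by linarith)
      have e7 : (A ^ 2 - 4 * d) * (1 / 200 - d) - (A ^ 2 / 200 - 2 * d) = d * (1 - A ^ 2) + 49 / 50 * d + 4 * d ^ 2 := by ring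
      have e8 : 0 ≤ 4 * d ^ 2 := by positivity
      linarith
    norm_num at hdsmall
    have e5 : y * ((1 / 200 - d) * y) = y ^ 2 * (1 / 200 - d) := by ring
    rw [e5] at hW3
    norm_num
    linarith
  refine le_trans ?_ (sum_le_sum h2)
  rw [sum_sub_distrib, ← sum_div, sum_sq, sum_const, card_range, hc0]
  norm_num

end Pool.Agent.R361.FA
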